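import Mathlib

set_option autoImplicit false

namespace Pool.Agent.H3.Frg

/-- Propositional formulas over `¬, →` with variables in `V`. -/
inductive Fm (V : Type) : Type where
  | var : V → Fm V
  | neg : Fm V → Fm V
  | imp : Fm V → Fm V → Fm V

/-- Truth value of a formula under an assignment. -/
def Fm.eval {V : Type} (x : V → Bool) : Fm V → Bool
  | Fm.var i => x i
  | Fm.neg A => !(A.eval x)
  | Fm.imp A B => !(A.eval x) || B.eval x

/-- Number of occurrences of variables in a formula. -/
def Fm.leaves {V : Type} : Fm V → ℕ
  | Fm.var _ => 1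
  | Fm.neg A => A.leaves
  | Fm.imp A B => A.leaves + B.leaves

end Pool.Agent.H3.Frg
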