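import Mathlib

set_option autoImplicit false

set_option linter.unusedSectionVars false

namespace Pool.Agent.H3.Frg

open Finset

/-- sign of a bit -/
def sg (b : Bool) : ℝ := if b then -1 else 1

theorem sg_mul_self (b : Bool) : sg b * sg b = 1 := by
  cases b <;> simp [sg]

variable {V : Type} [Fintype V] [DecidableEq V]

/-- Walsh character -/
def chi (S : Finset V) (x : V → Bool) : ℝ := ∏ i ∈ S, sg (x i)

theorem chi_empty (x : V → Bool) : chi (∅ : Finset V) x = 1 := by simp [chi]

theorem chi_eq_univ (S : Finset V) (x : V → Bool) :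
    chi S x = ∏ i, (if i ∈ S then sg (x i) else 1) := by
  unfold chi
  rw [Finset.prod_ite_mem, Finset.univ_inter]

theorem chi_mul (S T : Finset V) (x : V → Bool) :
    chi S x * chi T x = chi (symmDiff S T) x := by
  rw [chi_eq_univ, chi_eq_univ, chi_eq_univ, ← Finset.prod_mul_distrib]
  refine Finset.prod_congr rfl fun i _ => ?_
  by_cases h1 : i ∈ S <;> by_cases h2 : i ∈ T <;>
    simp [h1, h2, Finset.mem_symmDiff, sg_mul_self]

theorem chi_mul_self (S : Finset V) (x : V → Bool) : chi S x * chi S x = 1 := by
  rw [chi_mul, symmDiff_self]; exact chi_empty x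

theorem sum_chi_chi (x y : V → Bool) :
    ∑ S : Finset V, chi S x * chi S y = if x = y then (2 : ℝ) ^ Fintype.card V else 0 := by
  have h : ∑ S : Finset V, chi S x * chi S y = ∏ i, (1 + sg (x i) * sg (y i)) := by
    rw [Finset.prod_one_add]
    simp only [Finset.powerset_univ]
    refine Finset.sum_congr rfl fun S _ => ?_
    unfold chi
    rw [Finset.prod_mul_distrib]
  rw [h]
  split_ifs with hxy
  · subst hxy
    simp only [sg_mul_self]
    norm_num
  · obtain ⟨i, hi⟩ := Function.ne_iff.mp hxy
    refine Finset.prod_eq_zero (Finset.mem_univ i) ?_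
    revert hi
    cases x i <;> cases y i <;> simp [sg]

theorem sum_x_chi (S : Finset V) :
    ∑ x : V → Bool, chi S x = if S = ∅ then (2 : ℝ) ^ Fintype.card V else 0 := by
  have h : ∑ x : V → Bool, chi S x = ∏ i, ∑ b : Bool, (if i ∈ S then sg b else 1) := by
    rw [Finset.prod_univ_sum]
    simp only [Fintype.piFinset_univ]
    exact Finset.sum_congr rfl fun x _ => chi_eq_univ S x
  rw [h]
  split_ifs with hS
  · subst hS
    simp
  · obtain ⟨i, hi⟩ := Finset.nonempty_iff_ne_empty.mpr hS
    refine Finset.prod_eq_zero (Finset.mem_univ i) ?_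
    simp [hi, sg]

/-- unnormalised transform -/
def W (f : (V → Bool) → ℝ) (S : Finset V) : ℝ := ∑ x, f x * chi S x

theorem inversion (f : (V → Bool) → ℝ) (y : V → Bool) :
    ∑ S : Finset V, W f S * chi S y = (2 : ℝ) ^ Fintype.card V * f y := by
  unfold W
  simp only [Finset.sum_mul]
  rw [Finset.sum_comm]
  have : ∀ x : V → Bool, ∑ S : Finset V, f x * chi S x * chi S y
      = f x * (if x = y then (2 : ℝ) ^ Fintype.card V else 0) := by
    intro x
    rw [← sum_chi_chi, Finset.mul_sum]
    exact Finset.sum_congr rfl fun S _ => by ring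
  simp only [this]
  simp [mul_comm]

theorem parseval (f : (V → Bool) → ℝ) :
    ∑ S : Finset V, W f S ^ 2 = (2 : ℝ) ^ Fintype.card V * ∑ x, f x ^ 2 := by
  have : ∀ S : Finset V, W f S ^ 2 = ∑ y, f y * (W f S * chi S y) := by
    intro S
    rw [sq]
    nth_rewrite 2 [W]
    rw [Finset.mul_sum]
    exact Finset.sum_congr rfl fun y _ => by ring
  simp only [this]
  rw [Finset.sum_comm]
  simp only [← Finset.mul_sum, inversion]
  rw [Finset.mul_sum]
  exact Finset.sum_congr rfl fun y _ => by ring

/-- synthesis -/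
def syn (a : Finset V → ℝ) (x : V → Bool) : ℝ := ∑ S : Finset V, a S * chi S x

theorem W_syn (a : Finset V → ℝ) (S : Finset V) :
    W (syn a) S = (2 : ℝ) ^ Fintype.card V * a S := by
  unfold W syn
  simp only [Finset.sum_mul]
  rw [Finset.sum_comm]
  have : ∀ T : Finset V, ∑ x : V → Bool, a T * chi T x * chi S x
      = a T * (if T = S then (2 : ℝ) ^ Fintype.card V else 0) := by
    intro T
    have h1 : ∑ x : V → Bool, chi (symmDiff T S) x
        = if T = S then (2 : ℝ) ^ Fintype.card V else 0 := by
      rw [sum_x_chi]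
      refine if_congr ?_ rfl rfl
      rw [← Finset.bot_eq_empty]; exact symmDiff_eq_bot
    rw [← h1, Finset.mul_sum]
    refine Finset.sum_congr rfl fun x _ => ?_
    rw [← chi_mul]; ring
  simp only [this]
  simp [mul_comm]

theorem syn_injective {a b : Finset V → ℝ} (h : ∀ x, syn a x = syn b x) : a = b := by
  funext S
  have h1 : W (syn a) S = W (syn b) S := by
    rw [show syn a = syn b from funext h]
  rw [W_syn, W_syn] at h1
  exact mul_left_cancel₀ (by positivity) h1

end Pool.Agent.H3.Frg
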