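import Mathlib
import Pool.Agent.H3.Frg.Fourier
import Pool.Agent.H3.Frg.Formula

set_option autoImplicit false
set_option linter.unusedSectionVars false

namespace Pool.Agent.H3.Frg

open Finset Real

variable {V : Type} [Fintype V] [DecidableEq V]

/-- sum of squares -/
def N2 {ι : Type} [Fintype ι] (a : ι → ℝ) : ℝ := ∑ i, a i ^ 2

theorem N2_nonneg {ι : Type} [Fintype ι] (a : ι → ℝ) : 0 ≤ N2 a :=
  Finset.sum_nonneg fun _ _ => sq_nonneg _

theorem N2_eq_zero {ι : Type} [Fintype ι] {a : ι → ℝ} (h : N2 a = 0) (i : ι) : a i = 0 := by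
  have := (Finset.sum_eq_zero_iff_of_nonneg (fun i _ => sq_nonneg (a i))).mp h i (mem_univ i)
  exact pow_eq_zero_iff (two_ne_zero) |>.mp this

/-- the complement of a bounded idempotent has the same bound -/
theorem idem_compl {ι : Type} [Fintype ι] (P : (ι → ℝ) → (ι → ℝ)) (c : ℝ) (hc : 1 ≤ c)
    (hlin : ∀ (s t : ℝ) (a b : ι → ℝ) (i : ι),
      P (fun j => s * a j + t * b j) i = s * P a i + t * P b i)
    (hidem : ∀ a i, P (P a) i = P a i)
    (hb : ∀ a, N2 (P a) ≤ c ^ 2 * N2 a) (a : ι → ℝ) :
    N2 (fun i => a i - P a i) ≤ c ^ 2 * N2 a := by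
  set u : ι → ℝ := P a with hu
  set v : ι → ℝ := fun i => a i - P a i with hv
  have hc2 : 1 ≤ c ^ 2 := by nlinarith
  rcases (N2_nonneg u).lt_or_eq with hu0 | hu0
  swap
  · have h0 : ∀ i, P a i = 0 := fun i => N2_eq_zero hu0.symm i
    have : v = a := by
      funext i; rw [hv]; simp only; rw [h0 i, sub_zero]
    rw [this]
    nlinarith [N2_nonneg a]
  rcases (N2_nonneg v).lt_or_eq with hv0 | hv0
  swap
  · rw [← hv0]
    have := N2_nonneg a
    positivity
  set t : ℝ := Real.sqrt (N2 v / N2 u) with ht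
  have htpos : 0 < t := Real.sqrt_pos.mpr (div_pos hv0 hu0)
  have ht2 : t ^ 2 = N2 v / N2 u := Real.sq_sqrt (div_pos hv0 hu0).le
  set w : ι → ℝ := fun i => t * u i + t⁻¹ * v i with hw
  have hPu : ∀ i, P u i = u i := fun i => hidem a i
  have hPv : ∀ i, P v i = 0 := by
    intro i
    have h1 := hlin 1 (-1) a u i
    have h2 : (fun j => 1 * a j + -1 * u j) = v := by
      funext j; rw [hv]; simp only; ring
    rw [h2] at h1
    rw [h1, hPu i]; ring
  have hPw : ∀ i, P w i = t * u i := by
    intro i
    rw [hw, hlin, hPu, hPv]; ring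
  have hNw : N2 w = N2 a := by
    have e1 : N2 w = t ^ 2 * N2 u + (t⁻¹) ^ 2 * N2 v + 2 * ∑ i, u i * v i := by
      unfold N2
      rw [Finset.mul_sum, Finset.mul_sum, Finset.mul_sum, ← Finset.sum_add_distrib,
        ← Finset.sum_add_distrib]
      refine Finset.sum_congr rfl fun i _ => ?_
      rw [hw]; simp only
      have : t * t⁻¹ = 1 := mul_inv_cancel₀ htpos.ne'
      linear_combination (2 * u i * v i) * this
    have e2 : N2 a = N2 u + N2 v + 2 * ∑ i, u i * v i := by
      unfold N2
      rw [Finset.mul_sum, ← Finset.sum_add_distrib, ← Finset.sum_add_distrib]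
      refine Finset.sum_congr rfl fun i _ => ?_
      rw [hv, hu]; simp only; ring
    rw [e1, e2, inv_pow, ht2]
    field_simp
    ring
  have hNPw : N2 (P w) = N2 v := by
    have : N2 (P w) = t ^ 2 * N2 u := by
      unfold N2
      rw [Finset.mul_sum]
      refine Finset.sum_congr rfl fun i _ => ?_
      rw [hPw i]; ring
    rw [this, ht2]; field_simp
  calc N2 v = N2 (P w) := hNPw.symm
    _ ≤ c ^ 2 * N2 w := hb w
    _ = c ^ 2 * N2 a := by rw [hNw]

/-- weighted coefficients -/
noncomputable def Dw (t : ℝ) (a : Finset V → ℝ) : Finset V → ℝ := fun S => exp (t * (S.card : ℝ)) * a S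

/-- the conjugated projection of a formula, on Walsh coefficients -/
noncomputable def op (t : ℝ) : Fm V → (Finset V → ℝ) → (Finset V → ℝ)
  | Fm.var i, a => fun S =>
      (1 / 2) * (a S - (if i ∈ S then exp t else exp (-t)) * a (symmDiff S {i}))
  | Fm.neg A, a => fun S => a S - op t A a S
  | Fm.imp A B, a => fun S => a S - op t A (fun R => a R - op t B a R) S

theorem weight_shift (t : ℝ) (i : V) (S : Finset V) :
    exp (-t * (S.card : ℝ)) * (if i ∈ S then exp t else exp (-t))
      = exp (-t * ((symmDiff S {i}).card : ℝ)) := by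
  by_cases h : i ∈ S
  · have h1 : symmDiff S {i} = S.erase i := by
      ext j
      simp only [Finset.mem_symmDiff, Finset.mem_singleton, Finset.mem_erase]
      constructor
      · rintro (⟨h1, h2⟩ | ⟨h1, h2⟩)
        · exact ⟨h2, h1⟩
        · exact absurd (h1 ▸ h) h2
      · rintro ⟨h1, h2⟩
        exact Or.inl ⟨h2, h1⟩
    have h2 : (S.card : ℝ) = ((S.erase i).card : ℝ) + 1 := by
      rw [← Finset.card_erase_add_one h]; push_cast; ring
    rw [if_pos h, h1, ← exp_add, h2]
    congr 1; ring
  · have h1 : symmDiff S {i} = insert i S := by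
      ext j
      simp only [Finset.mem_symmDiff, Finset.mem_singleton, Finset.mem_insert]
      constructor
      · rintro (⟨h1, _⟩ | ⟨h1, _⟩)
        · exact Or.inr h1
        · exact Or.inl h1
      · rintro (h1 | h1)
        · exact Or.inr ⟨h1, h1 ▸ h⟩
        · exact Or.inl ⟨h1, fun h2 => h (h2 ▸ h1)⟩
    have h2 : ((insert i S).card : ℝ) = (S.card : ℝ) + 1 := by
      rw [Finset.card_insert_of_notMem h]; push_cast; ring
    rw [if_neg h, h1, ← exp_add, h2]
    congr 1; ring

/-- the flip permutation of sets -/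
def flipP (i : V) : Equiv.Perm (Finset V) :=
  Function.Involutive.toPerm (fun S => symmDiff S {i}) (fun S => by
    simp only
    rw [symmDiff_assoc, symmDiff_self]
    simp)

theorem flipP_apply (i : V) (S : Finset V) : flipP i S = symmDiff S {i} := rfl

theorem sum_flip (i : V) (f : Finset V → ℝ) : ∑ S, f (symmDiff S {i}) = ∑ S, f S :=
  Equiv.sum_comp (flipP i) f

/-- truth indicator -/
def ind (A : Fm V) (x : V → Bool) : ℝ := if A.eval x then 1 else 0

theorem syn_op (t : ℝ) (A : Fm V) : ∀ (a : Finset V → ℝ) (x : V → Bool),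
    syn (Dw (-t) (op t A a)) x = ind A x * syn (Dw (-t) a) x := by
  have hsub : ∀ (a b : Finset V → ℝ) (x : V → Bool),
      syn (Dw (-t) (fun S => a S - b S)) x = syn (Dw (-t) a) x - syn (Dw (-t) b) x := by
    intro a b x
    unfold syn Dw
    rw [← Finset.sum_sub_distrib]
    exact Finset.sum_congr rfl fun S _ => by ring
  induction A with
  | var i =>
    intro a x
    have e1 : syn (Dw (-t) (op t (Fm.var i) a)) x
        = (1 / 2) * (∑ S, exp (-t * (S.card : ℝ)) * a S * chi S x
            - ∑ S, exp (-t * ((symmDiff S {i}).card : ℝ)) * a (symmDiff S {i}) * chi S x) := by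
      unfold syn Dw op
      rw [← Finset.sum_sub_distrib, Finset.mul_sum]
      refine Finset.sum_congr rfl fun S _ => ?_
      rw [← weight_shift]
      ring
    have e2 : ∑ S, exp (-t * ((symmDiff S {i}).card : ℝ)) * a (symmDiff S {i}) * chi S x
        = sg (x i) * ∑ S, exp (-t * (S.card : ℝ)) * a S * chi S x := by
      rw [← sum_flip i (fun S => exp (-t * (S.card : ℝ)) * a S * chi S x), Finset.mul_sum]
      refine Finset.sum_congr rfl fun S _ => ?_
      have h1 : chi (symmDiff S {i}) x = chi S x * sg (x i) := by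
        rw [← chi_mul]; congr 1; simp [chi]
      rw [h1]
      linear_combination (-(exp (-t * ((symmDiff S {i}).card : ℝ)) * a (symmDiff S {i}) * chi S x))
        * sg_mul_self (x i)
    rw [e1, e2]
    have e3 : syn (Dw (-t) a) x = ∑ S, exp (-t * (S.card : ℝ)) * a S * chi S x := rfl
    rw [e3]
    unfold ind Fm.eval sg
    cases x i <;> simp <;> ring
  | neg A ih =>
    intro a x
    have e1 : syn (Dw (-t) (op t (Fm.neg A) a)) x
        = syn (Dw (-t) a) x - syn (Dw (-t) (op t A a)) x := hsub a (op t A a) x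
    rw [e1, ih]
    unfold ind
    simp only [Fm.eval]
    by_cases hA : A.eval x = true <;> simp [hA]
  | imp A B ihA ihB =>
    intro a x
    have e1 : syn (Dw (-t) (op t (Fm.imp A B) a)) x
        = syn (Dw (-t) a) x
          - syn (Dw (-t) (op t A (fun R => a R - op t B a R))) x := hsub a _ x
    rw [e1, ihA, hsub, ihB]
    unfold ind
    simp only [Fm.eval]
    by_cases hA : A.eval x = true <;> by_cases hB : B.eval x = true <;> simp [hA, hB]

theorem op_lin (t : ℝ) (A : Fm V) : ∀ (s r : ℝ) (a b : Finset V → ℝ) (S : Finset V),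
    op t A (fun j => s * a j + r * b j) S = s * op t A a S + r * op t A b S := by
  induction A with
  | var i => intro s r a b S; simp only [op]; ring
  | neg A ih => intro s r a b S; simp only [op]; rw [ih]; ring
  | imp A B ihA ihB =>
    intro s r a b S
    simp only [op]
    have : (fun R => s * a R + r * b R - op t B (fun j => s * a j + r * b j) R)
        = fun R => s * (a R - op t B a R) + r * (b R - op t B b R) := by
      funext R; rw [ihB]; ring
    rw [this, ihA]; ring

theorem Dw_syn_injective (t : ℝ) {a b : Finset V → ℝ}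
    (h : ∀ x, syn (Dw t a) x = syn (Dw t b) x) : a = b := by
  have h1 := syn_injective h
  funext S
  have h2 := congrFun h1 S
  unfold Dw at h2
  exact mul_left_cancel₀ (exp_pos _).ne' h2

theorem op_idem (t : ℝ) (A : Fm V) (a : Finset V → ℝ) : op t A (op t A a) = op t A a := by
  refine Dw_syn_injective (-t) fun x => ?_
  rw [syn_op, syn_op]
  unfold ind
  split_ifs <;> simp

theorem op_var_bound (t : ℝ) (i : V) (a : Finset V → ℝ) :
    N2 (op t (Fm.var i) a) ≤ cosh t ^ 2 * N2 a := by
  have hpq : exp t * exp (-t) = 1 := by rw [← exp_add]; simp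
  have hch : cosh t ^ 2 = (1 / 4) * (exp t + exp (-t)) ^ 2 := by
    rw [Real.cosh_eq]; ring
  have key : ∀ p q x y : ℝ, p * q = 1 →
      ((1 / 2) * (x - q * y)) ^ 2 + ((1 / 2) * (y - p * x)) ^ 2
        ≤ (1 / 4) * (p + q) ^ 2 * (x ^ 2 + y ^ 2) := by
    intro p q x y h
    have : (1 / 4) * (p + q) ^ 2 * (x ^ 2 + y ^ 2)
        - (((1 / 2) * (x - q * y)) ^ 2 + ((1 / 2) * (y - p * x)) ^ 2)
        = (1 / 4) * (1 + q ^ 2) * (x + p * y) ^ 2 := by
      linear_combination (1/4) * (2 * x ^ 2 + 2 * y ^ 2 - 2 * x * y * q - y ^ 2 * (p * q + 1)) * h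
    nlinarith [sq_nonneg (x + p * y), sq_nonneg q, mul_nonneg (add_nonneg zero_le_one (sq_nonneg q))
      (sq_nonneg (x + p * y))]
  have hpt : ∀ S : Finset V,
      (op t (Fm.var i) a S) ^ 2 + (op t (Fm.var i) a (symmDiff S {i})) ^ 2
        ≤ cosh t ^ 2 * (a S ^ 2 + a (symmDiff S {i}) ^ 2) := by
    intro S
    have hss : symmDiff (symmDiff S {i}) {i} = S := by
      rw [symmDiff_assoc, symmDiff_self]; simp
    have hm : i ∈ symmDiff S {i} ↔ i ∉ S := by
      simp [Finset.mem_symmDiff]
    simp only [op, hss, hm]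
    by_cases h : i ∈ S
    · simp only [h, if_true, not_true, if_false]
      have := key (exp t) (exp (-t)) (a (symmDiff S {i})) (a S) hpq
      rw [hch]; linarith
    · simp only [h, if_false, not_false_iff, if_true]
      have := key (exp t) (exp (-t)) (a S) (a (symmDiff S {i})) hpq
      rw [hch]; linarith
  have h1 := Finset.sum_le_sum (fun S (_ : S ∈ (univ : Finset (Finset V))) => hpt S)
  rw [Finset.sum_add_distrib, ← Finset.mul_sum, Finset.sum_add_distrib,
    sum_flip i (fun S => op t (Fm.var i) a S ^ 2), sum_flip i (fun S => a S ^ 2)] at h1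
  unfold N2
  linarith

theorem one_le_cosh_pow (t : ℝ) (n : ℕ) : 1 ≤ cosh t ^ n := one_le_pow₀ (Real.one_le_cosh t)

theorem op_bound (t : ℝ) (A : Fm V) : ∀ a : Finset V → ℝ,
    N2 (op t A a) ≤ (cosh t ^ A.leaves) ^ 2 * N2 a := by
  induction A with
  | var i =>
    intro a
    have := op_var_bound t i a
    simpa [Fm.leaves] using this
  | neg A ih =>
    intro a
    exact idem_compl (op t A) _ (one_le_cosh_pow t A.leaves) (op_lin t A)
      (fun a S => congrFun (op_idem t A a) S) ih a
  | imp A B ihA ihB =>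
    intro a
    have hB : ∀ a : Finset V → ℝ,
        N2 (fun S => a S - op t B a S) ≤ (cosh t ^ B.leaves) ^ 2 * N2 a :=
      idem_compl (op t B) _ (one_le_cosh_pow t B.leaves) (op_lin t B)
        (fun a S => congrFun (op_idem t B a) S) ihB
    set P : (Finset V → ℝ) → (Finset V → ℝ) :=
      fun a => op t A (fun R => a R - op t B a R) with hP
    have hPb : ∀ a, N2 (P a) ≤ (cosh t ^ (A.leaves + B.leaves)) ^ 2 * N2 a := by
      intro a
      calc N2 (P a) ≤ (cosh t ^ A.leaves) ^ 2 * N2 (fun R => a R - op t B a R) := ihA _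
        _ ≤ (cosh t ^ A.leaves) ^ 2 * ((cosh t ^ B.leaves) ^ 2 * N2 a) :=
            mul_le_mul_of_nonneg_left (hB a) (by positivity)
        _ = _ := by rw [pow_add]; ring
    have hPl : ∀ (s r : ℝ) (a b : Finset V → ℝ) (S : Finset V),
        P (fun j => s * a j + r * b j) S = s * P a S + r * P b S := by
      intro s r a b S
      rw [hP]
      simp only
      have : (fun R => s * a R + r * b R - op t B (fun j => s * a j + r * b j) R)
          = fun R => s * (a R - op t B a R) + r * (b R - op t B b R) := by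
        funext R; rw [op_lin]; ring
      rw [this, op_lin]
    have hPsyn : ∀ a x, syn (Dw (-t) (P a)) x
        = ind A x * (1 - ind B x) * syn (Dw (-t) a) x := by
      intro a x
      have hsub : syn (Dw (-t) (fun S => a S - op t B a S)) x
          = syn (Dw (-t) a) x - syn (Dw (-t) (op t B a)) x := by
        unfold syn Dw
        rw [← Finset.sum_sub_distrib]
        exact Finset.sum_congr rfl fun S _ => by ring
      rw [hP]
      simp only
      rw [syn_op, hsub, syn_op]
      ring
    have hPi : ∀ a S, P (P a) S = P a S := by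
      intro a S
      refine congrFun (Dw_syn_injective (-t) fun x => ?_) S
      rw [hPsyn, hPsyn]
      unfold ind
      split_ifs <;> simp
    exact idem_compl P _ (one_le_cosh_pow t _) hPl hPi hPb a

/-- **Sub-Gaussian Walsh tails of formulas**: exponential moment of the Walsh spectrum. -/
theorem exp_moment (t : ℝ) (A : Fm V) :
    ∑ S : Finset V, exp (2 * t * (S.card : ℝ)) * W (ind A) S ^ 2
      ≤ ((2 : ℝ) ^ Fintype.card V) ^ 2 * cosh t ^ (2 * A.leaves) := by
  set d : Finset V → ℝ := fun S => if S = ∅ then 1 else 0 with hd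
  set b := op t A d with hb
  have h1 : ∀ x, syn (Dw (-t) b) x = ind A x := by
    intro x
    rw [hb, syn_op]
    have : syn (Dw (-t) d) x = 1 := by
      unfold syn Dw
      rw [Finset.sum_eq_single (∅ : Finset V)]
      · simp [hd, chi]
      · intro S _ hS; simp [hd, hS]
      · intro h; exact absurd (mem_univ _) h
    rw [this, mul_one]
  have h2 : ∀ S, W (ind A) S = (2 : ℝ) ^ Fintype.card V * (exp (-t * (S.card : ℝ)) * b S) := by
    intro S
    rw [← show syn (Dw (-t) b) = ind A from funext h1, W_syn]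
    rfl
  have h3 : N2 d = 1 := by
    unfold N2
    rw [Finset.sum_eq_single (∅ : Finset V)]
    · simp [hd]
    · intro S _ hS; simp [hd, hS]
    · intro h; exact absurd (mem_univ _) h
  have h4 := op_bound t A d
  rw [h3, mul_one] at h4
  have h5 : ∑ S : Finset V, exp (2 * t * (S.card : ℝ)) * W (ind A) S ^ 2
      = ((2 : ℝ) ^ Fintype.card V) ^ 2 * N2 b := by
    unfold N2
    rw [Finset.mul_sum]
    refine Finset.sum_congr rfl fun S _ => ?_
    rw [h2 S]
    have : exp (2 * t * (S.card : ℝ)) * (exp (-t * (S.card : ℝ))) ^ 2 = 1 := by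
      rw [← Real.exp_nat_mul, ← exp_add]
      have : 2 * t * (S.card : ℝ) + ((2 : ℕ) : ℝ) * (-t * (S.card : ℝ)) = 0 := by push_cast; ring
      rw [this, exp_zero]
    linear_combination (((2 : ℝ) ^ Fintype.card V) ^ 2 * b S ^ 2) * this
  rw [h5]
  have h6 : cosh t ^ (2 * A.leaves) = (cosh t ^ A.leaves) ^ 2 := by
    rw [← pow_mul]; congr 1; ring
  rw [h6]
  exact mul_le_mul_of_nonneg_left h4 (by positivity)

end Pool.Agent.H3.Frg
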