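import Mathlib
import Pool.Agent.H3.Frg.Spectral

set_option autoImplicit false
set_option linter.unusedSectionVars false

namespace Pool.Agent.H3.Frg

open Finset Real

variable {V E : Type} [Fintype V] [DecidableEq V] [Fintype E] [DecidableEq E]

/-- the assignment in which the variable `j e` of block `e` gets the value `z e` and all the
others keep their value in `a` -/
def glue (β : V → E) (j : E → V) (a : V → Bool) (z : E → Bool) : V → Bool :=
  fun v => if j (β v) = v then z (β v) else a v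

/-- live part of a set of variables -/
def liveT (j : E → V) (S : Finset V) : Finset E := univ.filter fun e => j e ∈ S

/-- dead part of a set of variables -/
def deadT (β : V → E) (j : E → V) (S : Finset V) : Finset V := S.filter fun v => ¬ j (β v) = v

theorem chi_glue (β : V → E) (j : E → V) (hj : ∀ e, β (j e) = e) (a : V → Bool) (z : E → Bool)
    (S : Finset V) :
    chi S (glue β j a z) = chi (deadT β j S) a * chi (liveT j S) z := by
  unfold chi deadT liveT
  rw [← Finset.prod_filter_mul_prod_filter_not S (fun v => j (β v) = v), mul_comm]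
  congr 1
  · refine Finset.prod_congr rfl fun v hv => ?_
    rw [Finset.mem_filter] at hv
    unfold glue
    rw [if_neg hv.2]
  · refine Finset.prod_nbij' β j ?_ ?_ ?_ ?_ ?_
    · intro v hv
      rw [Finset.mem_filter] at hv
      rw [Finset.mem_filter]
      exact ⟨mem_univ _, hv.2.symm ▸ hv.1⟩
    · intro e he
      rw [Finset.mem_filter] at he
      rw [Finset.mem_filter, hj e]
      exact ⟨he.2, rfl⟩
    · intro v hv
      rw [Finset.mem_filter] at hv
      exact hv.2
    · intro e _
      exact hj e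
    · intro v hv
      rw [Finset.mem_filter] at hv
      unfold glue
      rw [if_pos hv.2]

theorem live_dead_inj (β : V → E) (j : E → V) {S S' : Finset V}
    (h1 : liveT j S = liveT j S') (h2 : deadT β j S = deadT β j S') : S = S' := by
  ext v
  by_cases hv : j (β v) = v
  · have h3 := Finset.ext_iff.mp h1 (β v)
    simp only [liveT, Finset.mem_filter, mem_univ, true_and, hv] at h3
    exact h3
  · have h3 := Finset.ext_iff.mp h2 v
    simp only [deadT, Finset.mem_filter, hv, not_false_iff, and_true] at h3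
    exact h3

theorem sum_x_chi_chi (S T : Finset V) :
    ∑ x : V → Bool, chi S x * chi T x = if S = T then (2 : ℝ) ^ Fintype.card V else 0 := by
  simp only [chi_mul]
  rw [sum_x_chi]
  refine if_congr ?_ rfl rfl
  rw [← Finset.bot_eq_empty]; exact symmDiff_eq_bot

theorem W_glue (β : V → E) (j : E → V) (hj : ∀ e, β (j e) = e) (a : V → Bool)
    (f : (V → Bool) → ℝ) (T : Finset E) :
    (2 : ℝ) ^ Fintype.card V * W (fun z => f (glue β j a z)) T
      = (2 : ℝ) ^ Fintype.card E *
        ∑ S : Finset V, (if liveT j S = T then W f S else 0) * chi (deadT β j S) a := by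
  have h1 : (2 : ℝ) ^ Fintype.card V * W (fun z => f (glue β j a z)) T
      = ∑ z : E → Bool, ∑ S : Finset V, W f S * chi (deadT β j S) a *
          (chi (liveT j S) z * chi T z) := by
    unfold W
    rw [Finset.mul_sum]
    refine Finset.sum_congr rfl fun z _ => ?_
    rw [← mul_assoc, ← inversion, Finset.sum_mul]
    refine Finset.sum_congr rfl fun S _ => ?_
    rw [chi_glue β j hj]
    unfold W
    ring
  rw [h1, Finset.sum_comm, Finset.mul_sum]
  refine Finset.sum_congr rfl fun S _ => ?_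
  rw [← Finset.mul_sum, sum_x_chi_chi]
  split_ifs <;> ring

theorem sum_a_sq (β : V → E) (j : E → V) (h : Finset V → ℝ) (T : Finset E)
    (hh : ∀ S, liveT j S ≠ T → h S = 0) :
    ∑ a : V → Bool, (∑ S : Finset V, h S * chi (deadT β j S) a) ^ 2
      = (2 : ℝ) ^ Fintype.card V * ∑ S : Finset V, h S ^ 2 := by
  have h1 : ∀ a : V → Bool, (∑ S : Finset V, h S * chi (deadT β j S) a) ^ 2
      = ∑ S : Finset V, ∑ S' : Finset V,
        h S * h S' * (chi (deadT β j S) a * chi (deadT β j S') a) := by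
    intro a
    rw [sq, Finset.sum_mul_sum]
    refine Finset.sum_congr rfl fun S _ => Finset.sum_congr rfl fun S' _ => ?_
    ring
  simp only [h1]
  rw [Finset.sum_comm, Finset.mul_sum]
  refine Finset.sum_congr rfl fun S _ => ?_
  rw [Finset.sum_comm]
  rw [Finset.sum_eq_single S]
  · rw [← Finset.mul_sum, sum_x_chi_chi, if_pos rfl]; ring
  · intro S' _ hS'
    rw [← Finset.mul_sum, sum_x_chi_chi]
    by_cases h2 : deadT β j S = deadT β j S'
    · have h3 : liveT j S ≠ T ∨ liveT j S' ≠ T := by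
        by_contra h4
        push Not at h4
        exact hS' (live_dead_inj β j (h4.1.trans h4.2.symm) h2).symm
      rcases h3 with h3 | h3
      · rw [hh S h3]; ring
      · rw [hh S' h3]; ring
    · rw [if_neg h2, mul_zero]
  · intro h2; exact absurd (mem_univ _) h2

theorem restrict_moment (β : V → E) (j : E → V) (hj : ∀ e, β (j e) = e)
    (f : (V → Bool) → ℝ) (u : ℝ) :
    (2 : ℝ) ^ Fintype.card V * ∑ a : V → Bool, ∑ T : Finset E,
        u ^ T.card * W (fun z => f (glue β j a z)) T ^ 2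
      = ((2 : ℝ) ^ Fintype.card E) ^ 2 *
        ∑ S : Finset V, u ^ (liveT j S).card * W f S ^ 2 := by
  have hV : (2 : ℝ) ^ Fintype.card V ≠ 0 := by positivity
  have h1 : ∀ T : Finset E, (2 : ℝ) ^ Fintype.card V *
      ∑ a : V → Bool, W (fun z => f (glue β j a z)) T ^ 2
      = ((2 : ℝ) ^ Fintype.card E) ^ 2 *
        ∑ S : Finset V, (if liveT j S = T then W f S ^ 2 else 0) := by
    intro T
    have h2 := sum_a_sq β j (fun S => if liveT j S = T then W f S else 0) T
      (fun S hS => if_neg hS)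
    have h3 : ∀ a : V → Bool, ((2 : ℝ) ^ Fintype.card V) ^ 2 *
        W (fun z => f (glue β j a z)) T ^ 2
        = ((2 : ℝ) ^ Fintype.card E) ^ 2 *
          (∑ S : Finset V, (if liveT j S = T then W f S else 0) * chi (deadT β j S) a) ^ 2 := by
      intro a
      rw [← mul_pow, W_glue β j hj, mul_pow]
    have h4 : ((2 : ℝ) ^ Fintype.card V) ^ 2 *
        ∑ a : V → Bool, W (fun z => f (glue β j a z)) T ^ 2
        = ((2 : ℝ) ^ Fintype.card E) ^ 2 * ((2 : ℝ) ^ Fintype.card V *
          ∑ S : Finset V, (if liveT j S = T then W f S else 0) ^ 2) := by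
      rw [← h2, Finset.mul_sum, Finset.mul_sum]
      exact Finset.sum_congr rfl fun a _ => h3 a
    have h5 : ∀ S : Finset V, (if liveT j S = T then W f S else 0) ^ 2
        = (if liveT j S = T then W f S ^ 2 else 0) := by
      intro S; split_ifs <;> simp
    simp only [h5] at h4
    refine mul_left_cancel₀ hV ?_
    linear_combination h4
  rw [Finset.sum_comm, Finset.mul_sum]
  have h6 : ∀ T : Finset E, (2 : ℝ) ^ Fintype.card V *
      ∑ a : V → Bool, u ^ T.card * W (fun z => f (glue β j a z)) T ^ 2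
      = ((2 : ℝ) ^ Fintype.card E) ^ 2 *
        ∑ S : Finset V, (if liveT j S = T then u ^ (liveT j S).card * W f S ^ 2 else 0) := by
    intro T
    rw [← Finset.mul_sum]
    calc (2 : ℝ) ^ Fintype.card V *
          (u ^ T.card * ∑ a : V → Bool, W (fun z => f (glue β j a z)) T ^ 2)
        = u ^ T.card * ((2 : ℝ) ^ Fintype.card V *
          ∑ a : V → Bool, W (fun z => f (glue β j a z)) T ^ 2) := by ring
      _ = u ^ T.card * (((2 : ℝ) ^ Fintype.card E) ^ 2 *
        ∑ S : Finset V, (if liveT j S = T then W f S ^ 2 else 0)) := by rw [h1 T]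
      _ = ((2 : ℝ) ^ Fintype.card E) ^ 2 *
        (u ^ T.card * ∑ S : Finset V, (if liveT j S = T then W f S ^ 2 else 0)) := by ring
      _ = _ := by
          rw [Finset.mul_sum]
          congr 1
          refine Finset.sum_congr rfl fun S _ => ?_
          by_cases h : liveT j S = T
          · rw [if_pos h, if_pos h, h]
          · rw [if_neg h, if_neg h, mul_zero]
  simp only [h6]
  rw [← Finset.mul_sum, Finset.sum_comm]
  congr 1
  refine Finset.sum_congr rfl fun S _ => ?_
  rw [Finset.sum_ite_eq]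
  simp

/-- the fibre of a block -/
def fib (β : V → E) (e : E) : Finset V := univ.filter fun v => β v = e

theorem mem_fib {β : V → E} {e : E} {v : V} : v ∈ fib β e ↔ β v = e := by
  simp [fib]

/-- the sections of `β` -/
def secs (β : V → E) : Finset (E → V) := Fintype.piFinset fun e => fib β e

theorem mem_secs {β : V → E} {j : E → V} : j ∈ secs β ↔ ∀ e, β (j e) = e := by
  simp [secs, Fintype.mem_piFinset, mem_fib]

theorem card_secs (β : V → E) : ((secs β).card : ℝ) = ∏ e, ((fib β e).card : ℝ) := by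
  unfold secs
  rw [Fintype.card_piFinset]
  push_cast
  rfl

theorem sum_secs (β : V → E) (S : Finset V) (u : ℝ) (hu : 1 ≤ u) (b : ℝ) (hb : 0 < b)
    (hfib : ∀ e, b ≤ ((fib β e).card : ℝ)) :
    ∑ j ∈ secs β, u ^ (liveT j S).card
      ≤ (∏ e, ((fib β e).card : ℝ)) * exp ((u - 1) / b * (S.card : ℝ)) := by
  have h1 : ∀ j : E → V, u ^ (liveT j S).card = ∏ e, (if j e ∈ S then u else 1) := by
    intro j
    rw [Finset.prod_ite, Finset.prod_const, Finset.prod_const_one, mul_one]
    rfl
  simp only [h1]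
  unfold secs
  rw [← Finset.prod_univ_sum (fun e => fib β e) (fun _ v => if v ∈ S then u else 1)]
  have h2 : (S.card : ℝ) = ∑ e, ((S.filter fun v => β v = e).card : ℝ) := by
    rw [Finset.card_eq_sum_card_fiberwise (f := β) (t := univ) (fun v _ => mem_univ _)]
    push_cast
    rfl
  rw [h2, Finset.mul_sum, exp_sum, ← Finset.prod_mul_distrib]
  refine Finset.prod_le_prod (fun e _ => Finset.sum_nonneg fun v _ => ?_) fun e _ => ?_
  · split_ifs <;> linarith
  · have hf := hfib e
    have hfpos : 0 < ((fib β e).card : ℝ) := hb.trans_le hf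
    have h3 : ∑ v ∈ fib β e, (if v ∈ S then u else 1)
        = ((fib β e).card : ℝ) + (u - 1) * ((S.filter fun v => β v = e).card : ℝ) := by
      have h4 : ∀ v ∈ fib β e, (if v ∈ S then u else (1:ℝ))
          = 1 + (u - 1) * (if v ∈ S then 1 else 0) := by
        intro v _; split_ifs <;> ring
      rw [Finset.sum_congr rfl h4, Finset.sum_add_distrib, ← Finset.mul_sum]
      simp only [Finset.sum_const, nsmul_eq_mul, mul_one]
      congr 2
      rw [← Finset.sum_filter, Finset.sum_const, nsmul_eq_mul, mul_one]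
      congr 2
      ext v
      simp only [Finset.mem_filter, mem_fib]
      tauto
    rw [h3]
    have h5 : (u - 1) * ((S.filter fun v => β v = e).card : ℝ)
        ≤ ((fib β e).card : ℝ) * ((u - 1) / b * ((S.filter fun v => β v = e).card : ℝ)) := by
      have h6 : (1:ℝ) ≤ ((fib β e).card : ℝ) / b := by rwa [le_div_iff₀ hb, one_mul]
      have h7 : 0 ≤ (u - 1) * ((S.filter fun v => β v = e).card : ℝ) := by
        apply mul_nonneg; linarith; positivity
      calc (u - 1) * ((S.filter fun v => β v = e).card : ℝ)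
          ≤ ((fib β e).card : ℝ) / b * ((u - 1) * ((S.filter fun v => β v = e).card : ℝ)) :=
            le_mul_of_one_le_left h7 h6
        _ = _ := by ring
    calc ((fib β e).card : ℝ) + (u - 1) * ((S.filter fun v => β v = e).card : ℝ)
        ≤ ((fib β e).card : ℝ) *
          ((u - 1) / b * ((S.filter fun v => β v = e).card : ℝ) + 1) := by linarith
      _ ≤ _ := mul_le_mul_of_nonneg_left (Real.add_one_le_exp _) hfpos.le

/-- total exponential moment over all restrictions -/
theorem total_moment (β : V → E) (A : Fm V) (u : ℝ) (hu : 1 ≤ u) (b : ℝ) (hb : 0 < b)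
    (hfib : ∀ e, b ≤ ((fib β e).card : ℝ)) (s : ℕ) (hs : A.leaves ≤ s) :
    ∑ j ∈ secs β, ∑ a : V → Bool, ∑ T : Finset E,
        u ^ T.card * W (fun z => ind A (glue β j a z)) T ^ 2
      ≤ (∏ e, ((fib β e).card : ℝ)) * (2 : ℝ) ^ Fintype.card V *
        (((2 : ℝ) ^ Fintype.card E) ^ 2 * cosh ((u - 1) / (2 * b)) ^ (2 * s)) := by
  have hV : (0 : ℝ) < (2 : ℝ) ^ Fintype.card V := by positivity
  refine le_of_mul_le_mul_left ?_ hV
  rw [Finset.mul_sum]
  have h1 : ∀ j ∈ secs β, (2 : ℝ) ^ Fintype.card V * ∑ a : V → Bool, ∑ T : Finset E,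
        u ^ T.card * W (fun z => ind A (glue β j a z)) T ^ 2
      = ((2 : ℝ) ^ Fintype.card E) ^ 2 *
        ∑ S : Finset V, u ^ (liveT j S).card * W (ind A) S ^ 2 := fun j hj =>
    restrict_moment β j (mem_secs.mp hj) (ind A) u
  rw [Finset.sum_congr rfl h1, ← Finset.mul_sum, Finset.sum_comm]
  have h2 : ∑ S : Finset V, ∑ j ∈ secs β, u ^ (liveT j S).card * W (ind A) S ^ 2
      ≤ ∑ S : Finset V, (∏ e, ((fib β e).card : ℝ)) *
        (exp (2 * ((u - 1) / (2 * b)) * (S.card : ℝ)) * W (ind A) S ^ 2) := by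
    refine Finset.sum_le_sum fun S _ => ?_
    rw [← Finset.sum_mul]
    have h3 := sum_secs β S u hu b hb hfib
    have h4 : 2 * ((u - 1) / (2 * b)) = (u - 1) / b := by
      field_simp
    rw [h4]
    calc (∑ j ∈ secs β, u ^ (liveT j S).card) * W (ind A) S ^ 2
        ≤ ((∏ e, ((fib β e).card : ℝ)) * exp ((u - 1) / b * (S.card : ℝ))) * W (ind A) S ^ 2 :=
          mul_le_mul_of_nonneg_right h3 (sq_nonneg _)
      _ = _ := by ring
  rw [← Finset.mul_sum] at h2
  have h5 := exp_moment ((u - 1) / (2 * b)) A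
  have h6 : cosh ((u - 1) / (2 * b)) ^ (2 * A.leaves) ≤ cosh ((u - 1) / (2 * b)) ^ (2 * s) :=
    pow_le_pow_right₀ (Real.one_le_cosh _) (by omega)
  have hP : 0 ≤ ∏ e, ((fib β e).card : ℝ) := Finset.prod_nonneg fun e _ => by positivity
  calc ((2 : ℝ) ^ Fintype.card E) ^ 2 *
        ∑ S : Finset V, ∑ j ∈ secs β, u ^ (liveT j S).card * W (ind A) S ^ 2
      ≤ ((2 : ℝ) ^ Fintype.card E) ^ 2 * ((∏ e, ((fib β e).card : ℝ)) *
        ∑ S : Finset V, exp (2 * ((u - 1) / (2 * b)) * (S.card : ℝ)) * W (ind A) S ^ 2) :=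
        mul_le_mul_of_nonneg_left h2 (by positivity)
    _ ≤ ((2 : ℝ) ^ Fintype.card E) ^ 2 * ((∏ e, ((fib β e).card : ℝ)) *
        (((2 : ℝ) ^ Fintype.card V) ^ 2 * cosh ((u - 1) / (2 * b)) ^ (2 * s))) := by
        refine mul_le_mul_of_nonneg_left (mul_le_mul_of_nonneg_left ?_ hP) (by positivity)
        exact h5.trans (mul_le_mul_of_nonneg_left h6 (by positivity))
    _ = _ := by ring

/-- the transform of a truth table is an integer -/
theorem W_int (g : (E → Bool) → Bool) (T : Finset E) :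
    ∃ n : ℤ, W (fun z => if g z then (1:ℝ) else 0) T = n := by
  refine ⟨∑ z : E → Bool, (if g z then (1:ℤ) else 0) * ∏ e ∈ T, (if z e then (-1:ℤ) else 1), ?_⟩
  unfold W chi sg
  push_cast
  refine Finset.sum_congr rfl fun z _ => ?_
  rfl

/-- **Existence of a good restriction**: few small formulas all get low degree. -/
theorem exists_good (β : V → E) (u : ℝ) (hu : 1 ≤ u) (b : ℝ) (hb : 0 < b)
    (hfib : ∀ e, b ≤ ((fib β e).card : ℝ)) (s L m : ℕ) (pf : Fin L → Fm V)
    (hs : ∀ i, (pf i).leaves ≤ s)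
    (hL : (L : ℝ) * (((2 : ℝ) ^ Fintype.card E) ^ 2 * cosh ((u - 1) / (2 * b)) ^ (2 * s))
      < u ^ m) :
    ∃ j : E → V, (∀ e, β (j e) = e) ∧ ∃ a : V → Bool, ∀ i, ∀ T : Finset E, m ≤ T.card →
      W (fun z => ind (pf i) (glue β j a z)) T = 0 := by
  by_contra hcon
  push Not at hcon
  have h1 : ∀ j ∈ secs β, ∀ a : V → Bool, u ^ m ≤ ∑ i : Fin L, ∑ T : Finset E,
      u ^ T.card * W (fun z => ind (pf i) (glue β j a z)) T ^ 2 := by
    intro j hj a
    obtain ⟨i, T, hT, hW⟩ := hcon j (mem_secs.mp hj) a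
    have h2 : u ^ m ≤ u ^ T.card * W (fun z => ind (pf i) (glue β j a z)) T ^ 2 := by
      obtain ⟨n, hn⟩ := W_int (fun z => (pf i).eval (glue β j a z)) T
      have hn' : W (fun z => ind (pf i) (glue β j a z)) T = n := hn
      rw [hn'] at hW ⊢
      have hn0 : n ≠ 0 := by
        rintro rfl; exact hW (by simp)
      have hn1 : (1:ℝ) ≤ (n:ℝ) ^ 2 := by
        have : (1:ℤ) ≤ n ^ 2 := by
          have := sq_nonneg n
          have h3 : n ^ 2 ≠ 0 := pow_ne_zero 2 hn0
          omega
        exact_mod_cast this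
      calc u ^ m ≤ u ^ T.card := pow_le_pow_right₀ hu hT
        _ ≤ u ^ T.card * (n:ℝ) ^ 2 := le_mul_of_one_le_right (by positivity) hn1
    have hnn : ∀ (i : Fin L) (T : Finset E),
        0 ≤ u ^ T.card * W (fun z => ind (pf i) (glue β j a z)) T ^ 2 := by
      intro i T; positivity
    refine h2.trans ?_
    refine (Finset.single_le_sum (f := fun T : Finset E =>
      u ^ T.card * W (fun z => ind (pf i) (glue β j a z)) T ^ 2)
      (fun T _ => hnn i T) (mem_univ T)).trans ?_
    exact Finset.single_le_sum (f := fun i : Fin L => ∑ T : Finset E,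
      u ^ T.card * W (fun z => ind (pf i) (glue β j a z)) T ^ 2)
      (fun i _ => Finset.sum_nonneg fun T _ => hnn i T) (mem_univ i)
  have h3 : ((secs β).card : ℝ) * ((2 : ℝ) ^ Fintype.card V * u ^ m)
      ≤ ∑ j ∈ secs β, ∑ a : V → Bool, ∑ i : Fin L, ∑ T : Finset E,
        u ^ T.card * W (fun z => ind (pf i) (glue β j a z)) T ^ 2 := by
    have h4 : ∑ j ∈ secs β, ∑ a : V → Bool, u ^ m
        = ((secs β).card : ℝ) * ((2 : ℝ) ^ Fintype.card V * u ^ m) := by
      simp
    rw [← h4]
    exact Finset.sum_le_sum fun j hj => Finset.sum_le_sum fun a _ => h1 j hj a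
  have h5 : ∑ j ∈ secs β, ∑ a : V → Bool, ∑ i : Fin L, ∑ T : Finset E,
        u ^ T.card * W (fun z => ind (pf i) (glue β j a z)) T ^ 2
      = ∑ i : Fin L, ∑ j ∈ secs β, ∑ a : V → Bool, ∑ T : Finset E,
        u ^ T.card * W (fun z => ind (pf i) (glue β j a z)) T ^ 2 := by
    rw [show (∑ j ∈ secs β, ∑ a : V → Bool, ∑ i : Fin L, ∑ T : Finset E,
        u ^ T.card * W (fun z => ind (pf i) (glue β j a z)) T ^ 2)
      = ∑ j ∈ secs β, ∑ i : Fin L, ∑ a : V → Bool, ∑ T : Finset E,
        u ^ T.card * W (fun z => ind (pf i) (glue β j a z)) T ^ 2 from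
      Finset.sum_congr rfl fun j _ => Finset.sum_comm]
    rw [Finset.sum_comm]
  have h6 : ∑ i : Fin L, ∑ j ∈ secs β, ∑ a : V → Bool, ∑ T : Finset E,
        u ^ T.card * W (fun z => ind (pf i) (glue β j a z)) T ^ 2
      ≤ ∑ i : Fin L, (∏ e, ((fib β e).card : ℝ)) * (2 : ℝ) ^ Fintype.card V *
        (((2 : ℝ) ^ Fintype.card E) ^ 2 * cosh ((u - 1) / (2 * b)) ^ (2 * s)) :=
    Finset.sum_le_sum fun i _ => total_moment β (pf i) u hu b hb hfib s (hs i)
  rw [Finset.sum_const, Finset.card_univ, Fintype.card_fin, nsmul_eq_mul] at h6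
  rw [h5] at h3
  have hP : 0 < ∏ e, ((fib β e).card : ℝ) := Finset.prod_pos fun e _ => hb.trans_le (hfib e)
  have hV : (0 : ℝ) < (2 : ℝ) ^ Fintype.card V := by positivity
  have h7 := h3.trans h6
  rw [card_secs] at h7
  have h8 : ((∏ e, ((fib β e).card : ℝ)) * (2 : ℝ) ^ Fintype.card V) * u ^ m
      ≤ ((∏ e, ((fib β e).card : ℝ)) * (2 : ℝ) ^ Fintype.card V) *
        ((L : ℝ) * (((2 : ℝ) ^ Fintype.card E) ^ 2 * cosh ((u - 1) / (2 * b)) ^ (2 * s))) := by
    calc ((∏ e, ((fib β e).card : ℝ)) * (2 : ℝ) ^ Fintype.card V) * u ^ m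
        = (∏ e, ((fib β e).card : ℝ)) * ((2 : ℝ) ^ Fintype.card V * u ^ m) := by ring
      _ ≤ _ := h7
      _ = _ := by ring
  have h9 := le_of_mul_le_mul_left h8 (mul_pos hP hV)
  linarith

end Pool.Agent.H3.Frg
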