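import Mathlib
import Pool.Agent.H3.Frg.Restrict

set_option autoImplicit false
set_option linter.unusedSectionVars false

namespace Pool.Agent.H3.Frg

open Finset

variable {E Wv : Type} [Fintype E] [DecidableEq E] [Fintype Wv] [DecidableEq Wv]

/-- edge boundary of a set of vertices -/
def bd (src tgt : E → Wv) (X : Finset Wv) : Finset E :=
  univ.filter fun e => ¬ (src e ∈ X ↔ tgt e ∈ X)

theorem mem_bd {src tgt : E → Wv} {X : Finset Wv} {e : E} :
    e ∈ bd src tgt X ↔ ¬ (src e ∈ X ↔ tgt e ∈ X) := by
  simp [bd]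

theorem bd_symmDiff (src tgt : E → Wv) (X Y : Finset Wv) :
    bd src tgt (symmDiff X Y) = symmDiff (bd src tgt X) (bd src tgt Y) := by
  ext e
  simp only [mem_bd, Finset.mem_symmDiff]
  tauto

theorem bd_empty (src tgt : E → Wv) : bd src tgt ∅ = ∅ := by
  ext e; simp [mem_bd]

/-- product of signs -/
def epsX (ε : Wv → ℝ) (X : Finset Wv) : ℝ := ∏ w ∈ X, ε w

theorem epsX_symmDiff {ε : Wv → ℝ} (hε : ∀ w, ε w * ε w = 1) (X Y : Finset Wv) :
    epsX ε (symmDiff X Y) = epsX ε X * epsX ε Y := by
  have h : ∀ X : Finset Wv, epsX ε X = ∏ w, (if w ∈ X then ε w else 1) := by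
    intro X
    unfold epsX
    rw [Finset.prod_ite_mem, Finset.univ_inter]
  rw [h, h, h, ← Finset.prod_mul_distrib]
  refine Finset.prod_congr rfl fun w _ => ?_
  by_cases h1 : w ∈ X <;> by_cases h2 : w ∈ Y <;> simp [h1, h2, Finset.mem_symmDiff, hε]

theorem epsX_mul_self {ε : Wv → ℝ} (hε : ∀ w, ε w * ε w = 1) (X : Finset Wv) :
    epsX ε X * epsX ε X = 1 := by
  rw [← epsX_symmDiff hε, symmDiff_self]
  simp [epsX]

/-- the expansion hypotheses -/
structure Expd (src tgt : E → Wv) (d : ℕ) : Prop where
  exp : ∀ X : Finset Wv, Fintype.card Wv < 3 * X.card → 3 * X.card ≤ 2 * Fintype.card Wv →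
    d < (bd src tgt X).card
  conn : ∀ X : Finset Wv, 3 * X.card ≤ 2 * Fintype.card Wv → bd src tgt X = ∅ → X = ∅
  three : 3 ≤ Fintype.card Wv

/-- small sets with small boundary -/
def smallL (src tgt : E → Wv) (d : ℕ) : Finset (Finset Wv) :=
  univ.filter fun X => 3 * X.card ≤ Fintype.card Wv ∧ (bd src tgt X).card ≤ d

theorem mem_smallL {src tgt : E → Wv} {d : ℕ} {X : Finset Wv} :
    X ∈ smallL src tgt d ↔ 3 * X.card ≤ Fintype.card Wv ∧ (bd src tgt X).card ≤ d := by
  simp [smallL]

theorem mem_smallL_of {src tgt : E → Wv} {d : ℕ} (hx : Expd src tgt d) {X : Finset Wv}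
    (h1 : 3 * X.card ≤ 2 * Fintype.card Wv) (h2 : (bd src tgt X).card ≤ d) :
    X ∈ smallL src tgt d := by
  rw [mem_smallL]
  refine ⟨?_, h2⟩
  by_contra h
  push Not at h
  have := hx.exp X h h1
  omega

theorem card_symmDiff_le' {α : Type} [DecidableEq α] (X Y : Finset α) :
    (symmDiff X Y).card ≤ X.card + Y.card := by
  refine (Finset.card_le_card (t := X ∪ Y) ?_).trans (Finset.card_union_le X Y)
  intro a ha
  rw [Finset.mem_symmDiff] at ha
  rw [Finset.mem_union]
  tauto

theorem sd_sd {α : Type} [DecidableEq α] (A B : Finset α) :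
    symmDiff A (symmDiff A B) = B := by
  ext a
  simp only [Finset.mem_symmDiff]
  tauto

theorem smallL_closed {src tgt : E → Wv} {d : ℕ} (hx : Expd src tgt d) {X Y : Finset Wv}
    (hX : X ∈ smallL src tgt d) (hY : Y ∈ smallL src tgt d)
    (h2 : (bd src tgt (symmDiff X Y)).card ≤ d) : symmDiff X Y ∈ smallL src tgt d := by
  rw [mem_smallL] at hX hY
  refine mem_smallL_of hx ?_ h2
  have := card_symmDiff_le' X Y
  omega

/-- the pseudo-expectation -/
noncomputable def Et (src tgt : E → Wv) (d : ℕ) (ε : Wv → ℝ) (g : (E → Bool) → ℝ) : ℝ :=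
  ∑ X ∈ smallL src tgt d, epsX ε X * W g (bd src tgt X)

theorem W_chi_mul (p : (E → Bool) → ℝ) (S T : Finset E) :
    W (fun z => chi S z * p z) T = W p (symmDiff S T) := by
  unfold W
  refine Finset.sum_congr rfl fun z _ => ?_
  rw [← chi_mul]; ring

theorem W_add (p q : (E → Bool) → ℝ) (T : Finset E) :
    W (fun z => p z + q z) T = W p T + W q T := by
  unfold W
  rw [← Finset.sum_add_distrib]
  exact Finset.sum_congr rfl fun z _ => by ring

theorem W_smul (c : ℝ) (p : (E → Bool) → ℝ) (T : Finset E) :
    W (fun z => c * p z) T = c * W p T := by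
  unfold W
  rw [Finset.mul_sum]
  exact Finset.sum_congr rfl fun z _ => by ring

theorem Et_add (src tgt : E → Wv) (d : ℕ) (ε : Wv → ℝ) (p q : (E → Bool) → ℝ) :
    Et src tgt d ε (fun z => p z + q z) = Et src tgt d ε p + Et src tgt d ε q := by
  unfold Et
  rw [← Finset.sum_add_distrib]
  exact Finset.sum_congr rfl fun X _ => by rw [W_add]; ring

theorem Et_smul (src tgt : E → Wv) (d : ℕ) (ε : Wv → ℝ) (c : ℝ) (p : (E → Bool) → ℝ) :
    Et src tgt d ε (fun z => c * p z) = c * Et src tgt d ε p := by
  unfold Et
  rw [Finset.mul_sum]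
  exact Finset.sum_congr rfl fun X _ => by rw [W_smul]; ring

theorem Et_sum (src tgt : E → Wv) (d : ℕ) (ε : Wv → ℝ) {ι : Type} (s : Finset ι)
    (c : ι → ℝ) (p : ι → (E → Bool) → ℝ) :
    Et src tgt d ε (fun z => ∑ i ∈ s, c i * p i z) = ∑ i ∈ s, c i * Et src tgt d ε (p i) := by
  classical
  induction s using Finset.induction_on with
  | empty =>
    simp only [Finset.sum_empty]
    unfold Et W
    simp
  | insert a s ha ih =>
    rw [Finset.sum_insert ha, ← ih, ← Et_smul, ← Et_add]
    congr 1
    funext z
    rw [Finset.sum_insert ha]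

/-- degree at most `D` -/
def Dg (r : (E → Bool) → ℝ) (D : ℕ) : Prop := ∀ T : Finset E, D < T.card → W r T = 0

theorem Et_mul_zero {src tgt : E → Wv} {d : ℕ} {ε : Wv → ℝ} {r p : (E → Bool) → ℝ} {D : ℕ}
    (hr : Dg r D)
    (hp : ∀ S : Finset E, S.card ≤ D → Et src tgt d ε (fun z => chi S z * p z) = 0) :
    Et src tgt d ε (fun z => r z * p z) = 0 := by
  have h1 : (2 : ℝ) ^ Fintype.card E * Et src tgt d ε (fun z => r z * p z)
      = ∑ S : Finset E, W r S * Et src tgt d ε (fun z => chi S z * p z) := by
    rw [← Et_smul, ← Et_sum]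
    congr 1
    funext z
    rw [← mul_assoc, ← inversion, Finset.sum_mul]
    exact Finset.sum_congr rfl fun S _ => by ring
  have h2 : ∑ S : Finset E, W r S * Et src tgt d ε (fun z => chi S z * p z) = 0 := by
    refine Finset.sum_eq_zero fun S _ => ?_
    by_cases hS : S.card ≤ D
    · rw [hp S hS, mul_zero]
    · rw [hr S (by omega), zero_mul]
  rw [h2] at h1
  exact (mul_eq_zero.mp h1).resolve_left (by positivity)

theorem Dg_mul {r q : (E → Bool) → ℝ} {D D' : ℕ} (hr : Dg r D) (hq : Dg q D') :
    Dg (fun z => r z * q z) (D + D') := by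
  intro T hT
  have h1 : (2 : ℝ) ^ Fintype.card E * W (fun z => r z * q z) T
      = ∑ S : Finset E, W r S * W q (symmDiff S T) := by
    have h2 : ∀ S : Finset E, W r S * W q (symmDiff S T)
        = ∑ z : E → Bool, W r S * chi S z * (q z * chi T z) := by
      intro S
      rw [← W_chi_mul]
      unfold W
      rw [Finset.mul_sum]
      exact Finset.sum_congr rfl fun z _ => by ring
    simp only [h2]
    rw [Finset.sum_comm]
    simp only [← Finset.sum_mul, inversion]
    unfold W
    rw [Finset.mul_sum]
    exact Finset.sum_congr rfl fun z _ => by ring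
  have h3 : ∑ S : Finset E, W r S * W q (symmDiff S T) = 0 := by
    refine Finset.sum_eq_zero fun S _ => ?_
    by_cases hS : D < S.card
    · rw [hr S hS, zero_mul]
    · have h4 : T.card ≤ S.card + (symmDiff S T).card := by
        have h5 : T = symmDiff S (symmDiff S T) := (sd_sd S T).symm
        conv_lhs => rw [h5]
        exact card_symmDiff_le' _ _
      rw [hq _ (by omega), mul_zero]
  rw [h3] at h1
  exact (mul_eq_zero.mp h1).resolve_left (by positivity)

theorem W_chi (R T : Finset E) :
    W (chi R) T = if R = T then (2 : ℝ) ^ Fintype.card E else 0 := by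
  unfold W
  exact sum_x_chi_chi R T

theorem Dg_chi (R : Finset E) : Dg (chi R) R.card := by
  intro T hT
  rw [W_chi, if_neg]
  rintro rfl
  omega

theorem Dg_mono {r : (E → Bool) → ℝ} {D D' : ℕ} (hr : Dg r D) (h : D ≤ D') : Dg r D' :=
  fun T hT => hr T (by omega)

/-- truth table as a real function -/
def tt (g : (E → Bool) → Bool) : (E → Bool) → ℝ := fun z => if g z then 1 else 0

theorem Dg_one_sub {r : (E → Bool) → ℝ} {D : ℕ} (hr : Dg r D) : Dg (fun z => 1 - r z) D := by
  intro T hT
  have h1 : (fun z => 1 - r z) = (fun z : E → Bool => chi ∅ z + (-1) * r z) := by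
    funext z; rw [chi_empty]; ring
  have h2 : W (fun z => 1 - r z) T = W (chi ∅) T + (-1) * W r T := by
    rw [h1]
    unfold W
    rw [Finset.mul_sum, ← Finset.sum_add_distrib]
    exact Finset.sum_congr rfl fun z _ => by ring
  rw [h2, hr T hT, W_chi, if_neg, mul_zero, add_zero]
  rintro rfl
  simp at hT

theorem transfer {src tgt : E → Wv} {d : ℕ} (hx : Expd src tgt d) {ε : Wv → ℝ}
    (hε : ∀ w, ε w * ε w = 1) {p : (E → Bool) → ℝ} {k : ℕ} (h2k : 2 * k ≤ d) (hdeg : Dg p k)
    (hz : ∀ R : Finset E, R.card ≤ k → Et src tgt d ε (fun z => chi R z * p z) = 0)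
    (S : Finset E) (hS : S.card + k ≤ d) :
    Et src tgt d ε (fun z => chi S z * p z) = 0 := by
  have hform : ∀ S : Finset E, Et src tgt d ε (fun z => chi S z * p z)
      = ∑ X ∈ (smallL src tgt d).filter (fun X => (symmDiff S (bd src tgt X)).card ≤ k),
        epsX ε X * W p (symmDiff S (bd src tgt X)) := by
    intro S
    unfold Et
    rw [Finset.sum_filter]
    refine Finset.sum_congr rfl fun X _ => ?_
    rw [W_chi_mul]
    split_ifs with h
    · rfl
    · rw [hdeg _ (by omega), mul_zero]
  by_cases hex : ∃ X0 ∈ smallL src tgt d, (symmDiff S (bd src tgt X0)).card ≤ k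
  · obtain ⟨X0, hX0, hc⟩ := hex
    set R : Finset E := symmDiff S (bd src tgt X0) with hR
    have hRz := hz R hc
    rw [hform R] at hRz
    rw [hform S]
    have hinv : ∀ X : Finset Wv, symmDiff X0 (symmDiff X0 X) = X := sd_sd X0
    have hRY : ∀ X : Finset Wv, symmDiff R (bd src tgt (symmDiff X0 X))
        = symmDiff S (bd src tgt X) := by
      intro X
      rw [hR, bd_symmDiff]
      ext e
      simp only [Finset.mem_symmDiff]
      tauto
    have hbij : ∑ X ∈ (smallL src tgt d).filter
          (fun X => (symmDiff S (bd src tgt X)).card ≤ k),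
          epsX ε X * W p (symmDiff S (bd src tgt X))
        = ∑ Y ∈ (smallL src tgt d).filter
          (fun Y => (symmDiff R (bd src tgt Y)).card ≤ k),
          epsX ε X0 * (epsX ε Y * W p (symmDiff R (bd src tgt Y))) := by
      refine Finset.sum_nbij' (fun X => symmDiff X0 X) (fun X => symmDiff X0 X) ?_ ?_ ?_ ?_ ?_
      · intro X hX
        rw [Finset.mem_filter] at hX ⊢
        rw [hRY X]
        refine ⟨smallL_closed hx hX0 hX.1 ?_, hX.2⟩
        have h3 : bd src tgt (symmDiff X0 X)
            = symmDiff (symmDiff S (bd src tgt X0)) (symmDiff S (bd src tgt X)) := by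
          rw [bd_symmDiff]
          ext e
          simp only [Finset.mem_symmDiff]
          tauto
        rw [h3]
        have := card_symmDiff_le' (symmDiff S (bd src tgt X0)) (symmDiff S (bd src tgt X))
        have h4 := hX.2
        have h6 : (symmDiff S (bd src tgt X0)).card ≤ k := hc
        omega
      · intro Y hY
        rw [Finset.mem_filter] at hY ⊢
        have h5 := hRY (symmDiff X0 Y)
        rw [hinv Y] at h5
        rw [← h5]
        refine ⟨smallL_closed hx hX0 hY.1 ?_, hY.2⟩
        have h3 : bd src tgt (symmDiff X0 Y)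
            = symmDiff S (symmDiff R (bd src tgt Y)) := by
          rw [bd_symmDiff, hR]
          ext e
          simp only [Finset.mem_symmDiff]
          tauto
        rw [h3]
        have := card_symmDiff_le' S (symmDiff R (bd src tgt Y))
        have h4 := hY.2
        omega
      · intro X _; exact hinv X
      · intro X _; exact hinv X
      · intro X _
        rw [hRY X, epsX_symmDiff hε]
        linear_combination (-(epsX ε X * W p (symmDiff S (bd src tgt X)))) *
          epsX_mul_self hε X0
    rw [hbij, ← Finset.mul_sum, hRz, mul_zero]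
  · rw [hform S]
    refine Finset.sum_eq_zero fun X hX => ?_
    rw [Finset.mem_filter] at hX
    exact absurd ⟨X, hX.1, hX.2⟩ hex

theorem Et_chi {src tgt : E → Wv} {d : ℕ} {ε : Wv → ℝ} (S : Finset E) :
    Et src tgt d ε (chi S) = ∑ X ∈ (smallL src tgt d).filter (fun X => S = bd src tgt X),
      epsX ε X * (2 : ℝ) ^ Fintype.card E := by
  unfold Et
  rw [Finset.sum_filter]
  refine Finset.sum_congr rfl fun X _ => ?_
  rw [W_chi]
  split_ifs <;> simp

theorem Et_one {src tgt : E → Wv} {d : ℕ} (hx : Expd src tgt d) {ε : Wv → ℝ} :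
    Et src tgt d ε (chi ∅) = (2 : ℝ) ^ Fintype.card E := by
  rw [Et_chi]
  have h1 : (smallL src tgt d).filter (fun X => ∅ = bd src tgt X) = {∅} := by
    ext X
    rw [Finset.mem_filter, mem_smallL, Finset.mem_singleton]
    constructor
    · rintro ⟨⟨h1, _⟩, h2⟩
      exact hx.conn X (by omega) h2.symm
    · rintro rfl
      rw [bd_empty]
      simp
  rw [h1, Finset.sum_singleton]
  simp [epsX]

theorem Et_shift {src tgt : E → Wv} {d : ℕ} (hx : Expd src tgt d) {ε : Wv → ℝ}
    (hε : ∀ w, ε w * ε w = 1) (w : Wv) (S : Finset E)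
    (h1 : S.card + (bd src tgt {w}).card ≤ d) :
    Et src tgt d ε (chi S) = ε w * Et src tgt d ε (chi (symmDiff S (bd src tgt {w}))) := by
  rw [Et_chi, Et_chi, Finset.mul_sum]
  have hinv : ∀ X : Finset Wv, symmDiff (symmDiff X {w}) {w} = X := by
    intro X; rw [symmDiff_assoc, symmDiff_self]; simp
  have hcl : ∀ X ∈ smallL src tgt d, (bd src tgt (symmDiff X {w})).card ≤ d →
      symmDiff X {w} ∈ smallL src tgt d := by
    intro X hX h
    rw [mem_smallL] at hX
    refine mem_smallL_of hx ?_ h
    have h3 := card_symmDiff_le' X {w}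
    rw [Finset.card_singleton] at h3
    have := hx.three
    omega
  refine Finset.sum_nbij' (fun X => symmDiff X {w}) (fun X => symmDiff X {w}) ?_ ?_ ?_ ?_ ?_
  · intro X hX
    rw [Finset.mem_filter] at hX ⊢
    have h2 : bd src tgt (symmDiff X {w}) = symmDiff S (bd src tgt {w}) := by
      rw [bd_symmDiff, ← hX.2]
    refine ⟨hcl X hX.1 ?_, h2.symm⟩
    rw [h2]
    exact (card_symmDiff_le' _ _).trans h1
  · intro Y hY
    rw [Finset.mem_filter] at hY ⊢
    have h2 : bd src tgt (symmDiff Y {w}) = S := by
      rw [bd_symmDiff, ← hY.2, symmDiff_assoc, symmDiff_self]; simp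
    refine ⟨hcl Y hY.1 ?_, h2.symm⟩
    rw [h2]; omega
  · intro X _; exact hinv X
  · intro X _; exact hinv X
  · intro X _
    rw [epsX_symmDiff hε]
    have h4 : epsX ε {w} = ε w := by simp [epsX]
    rw [h4]
    linear_combination (-(epsX ε X * 2 ^ Fintype.card E)) * hε w

/-- **Semantic degree lower bound for Tseitin systems on expanders.** -/
theorem tseitin_degree {src tgt : E → Wv} {d k : ℕ} (hx : Expd src tgt d) {ε : Wv → ℝ}
    (hε : ∀ w, ε w * ε w = 1) (h4k : 4 * k ≤ d)
    (hdw : ∀ w, 2 * k + (bd src tgt {w}).card ≤ d)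
    {L : ℕ} (f : Fin L → (E → Bool) → Bool) (hdeg : ∀ i, Dg (tt (f i)) k)
    (hstep : ∀ i, (∃ w, ∀ z, chi (bd src tgt {w}) z = ε w → f i z = true) ∨
      (∃ j l, j < i ∧ l < i ∧ ∀ z, f j z = true → f l z = true → f i z = true) ∨
      (∀ z, f i z = true)) :
    ¬ ∃ i, ∀ z, f i z = false := by
  have key : ∀ n : ℕ, ∀ i : Fin L, i.val = n → ∀ R : Finset E, R.card ≤ k →
      Et src tgt d ε (fun z => chi R z * (1 - tt (f i) z)) = 0 := by
    intro n
    induction n using Nat.strong_induction_on with
    | _ n ih =>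
      intro i hi R hR
      have hr1 : Dg (fun z => chi R z * (1 - tt (f i) z)) (2 * k) :=
        Dg_mono (Dg_mul (Dg_chi R) (Dg_one_sub (hdeg i))) (by omega)
      rcases hstep i with ⟨w, hw⟩ | ⟨j, l, hj, hl, hjl⟩ | htaut
      · -- axiom
        have h1 : (fun z => chi R z * (1 - tt (f i) z))
            = fun z => (chi R z * (1 - tt (f i) z)) *
              ((1 / 2) * (1 - ε w * chi (bd src tgt {w}) z)) := by
          funext z
          by_cases h2 : chi (bd src tgt {w}) z = ε w
          · have h3 := hw z h2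
            unfold tt
            rw [h3]; simp
          · have h4 : (chi (bd src tgt {w}) z - ε w) * (chi (bd src tgt {w}) z + ε w) = 0 := by
              linear_combination chi_mul_self (bd src tgt {w}) z - hε w
            rcases mul_eq_zero.mp h4 with h5 | h5
            · exact absurd (by linarith) h2
            · have h6 : chi (bd src tgt {w}) z = - ε w := by linarith
              rw [h6]
              linear_combination (-(1/2) * (chi R z * (1 - tt (f i) z))) * hε w
        rw [h1]
        refine Et_mul_zero hr1 fun S hS => ?_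
        have h7 : (fun z => chi S z * ((1 / 2) * (1 - ε w * chi (bd src tgt {w}) z)))
            = fun z => (1 / 2) * chi S z +
              (-(1 / 2) * ε w) * chi (symmDiff S (bd src tgt {w})) z := by
          funext z
          rw [← chi_mul]; ring
        rw [h7, Et_add, Et_smul, Et_smul, Et_shift hx hε w S (by have := hdw w; omega)]
        ring
      · -- inference
        have hZj : ∀ R : Finset E, R.card ≤ k →
            Et src tgt d ε (fun z => chi R z * (1 - tt (f j) z)) = 0 :=
          ih j.val (by omega) j rfl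
        have hZl : ∀ R : Finset E, R.card ≤ k →
            Et src tgt d ε (fun z => chi R z * (1 - tt (f l) z)) = 0 :=
          ih l.val (by omega) l rfl
        have h1 : (fun z => chi R z * (1 - tt (f i) z))
            = fun z => (chi R z * (1 - tt (f i) z)) * (1 - tt (f j) z) +
              (chi R z * (1 - tt (f i) z) * tt (f j) z) * (1 - tt (f l) z) := by
          funext z
          have h2 := hjl z
          unfold tt
          by_cases a1 : f j z = true
          · by_cases a2 : f l z = true
            · rw [h2 a1 a2]; simp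
            · simp [a1, a2]
          · simp [a1]
        rw [h1, Et_add]
        have e1 : Et src tgt d ε
            (fun z => (chi R z * (1 - tt (f i) z)) * (1 - tt (f j) z)) = 0 := by
          refine Et_mul_zero hr1 fun S hS => ?_
          exact transfer hx hε (by omega) (Dg_one_sub (hdeg j)) hZj S (by omega)
        have e2 : Et src tgt d ε
            (fun z => (chi R z * (1 - tt (f i) z) * tt (f j) z) * (1 - tt (f l) z)) = 0 := by
          have hr2 : Dg (fun z => chi R z * (1 - tt (f i) z) * tt (f j) z) (3 * k) :=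
            Dg_mono (Dg_mul hr1 (hdeg j)) (by omega)
          refine Et_mul_zero hr2 fun S hS => ?_
          exact transfer hx hε (by omega) (Dg_one_sub (hdeg l)) hZl S (by omega)
        rw [e1, e2, add_zero]
      · have h1 : (fun z => chi R z * (1 - tt (f i) z)) = fun z => (0:ℝ) * chi R z := by
          funext z
          unfold tt
          rw [htaut z]; simp
        rw [h1, Et_smul, zero_mul]
  rintro ⟨i, hi⟩
  have h1 := key i.val i rfl ∅ (by simp)
  have h2 : (fun z => chi ∅ z * (1 - tt (f i) z)) = chi (∅ : Finset E) := by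
    funext z
    unfold tt
    rw [hi z]; simp
  rw [h2, Et_one hx] at h1
  exact absurd h1 (by positivity)

end Pool.Agent.H3.Frg
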