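import Mathlib
import Pool.Agent.H3.Frg.Tseitin

set_option autoImplicit false
set_option linter.unusedSectionVars false

namespace Pool.Agent.H3.Frg

open Finset

section Perm

variable {W : Type} [Fintype W] [DecidableEq W]

/-- permutations for which the preimage of `X` is `Y` -/
def movers (X Y : Finset W) : Finset (Equiv.Perm W) :=
  univ.filter fun σ => (univ.filter fun v => σ v ∈ X) = Y

theorem mem_movers {X Y : Finset W} {σ : Equiv.Perm W} :
    σ ∈ movers X Y ↔ (univ.filter fun v => σ v ∈ X) = Y := by simp [movers]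

theorem card_pre (X : Finset W) (σ : Equiv.Perm W) :
    (univ.filter fun v => σ v ∈ X).card = X.card := by
  have h : (univ.filter fun v => σ v ∈ X) = X.map σ.symm.toEmbedding := by
    ext v
    simp only [Finset.mem_filter, mem_univ, true_and, Finset.mem_map_equiv, Equiv.symm_symm]
  rw [h, Finset.card_map]

theorem exists_move (Y Y' : Finset W) (h : Y.card = Y'.card) :
    ∃ τ : Equiv.Perm W, ∀ v, v ∈ Y ↔ τ v ∈ Y' := by
  have e : {x // x ∈ Y} ≃ {x // x ∈ Y'} := Finset.equivOfCardEq h
  refine ⟨e.extendSubtype, fun v => ⟨fun hv => e.extendSubtype_mem v hv, fun hv => ?_⟩⟩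
  by_contra hn
  exact e.extendSubtype_not_mem v hn hv

theorem card_movers_eq (X Y Y' : Finset W) (h : Y.card = Y'.card) :
    (movers X Y).card = (movers X Y').card := by
  obtain ⟨τ, hτ⟩ := exists_move Y' Y h.symm
  refine Finset.card_nbij' (fun σ => τ.trans σ) (fun σ => τ.symm.trans σ) ?_ ?_ ?_ ?_
  · intro σ hσ
    have hσ' := mem_movers.mp hσ
    refine mem_movers.mpr ?_
    ext v
    have h1 := Finset.ext_iff.mp hσ' (τ v)
    simp only [Finset.mem_filter, mem_univ, true_and] at h1 ⊢
    rw [Equiv.trans_apply, h1, hτ v]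
  · intro σ hσ
    have hσ' := mem_movers.mp hσ
    refine mem_movers.mpr ?_
    ext v
    have h1 := Finset.ext_iff.mp hσ' (τ.symm v)
    simp only [Finset.mem_filter, mem_univ, true_and] at h1 ⊢
    rw [Equiv.trans_apply, h1, hτ (τ.symm v), Equiv.apply_symm_apply]
  · intro σ _
    ext v; simp
  · intro σ _
    ext v; simp

theorem card_movers_le (X Y : Finset W) :
    (movers X Y).card * (Fintype.card W).choose X.card ≤ (Fintype.card W).factorial := by
  by_cases hY : Y.card = X.card
  · have h1 : (univ : Finset (Equiv.Perm W)).card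
        = ∑ Y' ∈ Finset.powersetCard X.card (univ : Finset W), (movers X Y').card := by
      unfold movers
      refine Finset.card_eq_sum_card_fiberwise (f := fun σ : Equiv.Perm W =>
        (univ.filter fun v => σ v ∈ X)) fun σ _ => ?_
      exact Finset.mem_coe.mpr
        (Finset.mem_powersetCard.mpr ⟨Finset.subset_univ _, card_pre X σ⟩)
    have h2 : ∑ Y' ∈ Finset.powersetCard X.card (univ : Finset W), (movers X Y').card
        = ∑ Y' ∈ Finset.powersetCard X.card (univ : Finset W), (movers X Y).card := by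
      refine Finset.sum_congr rfl fun Y' hY' => ?_
      rw [Finset.mem_powersetCard] at hY'
      exact card_movers_eq X Y' Y (by rw [hY'.2, hY])
    rw [h2, Finset.sum_const, Finset.card_powersetCard, smul_eq_mul, Finset.card_univ,
      Finset.card_univ, Fintype.card_perm] at h1
    rw [h1, mul_comm]
  · have : movers X Y = ∅ := by
      refine Finset.eq_empty_of_forall_notMem fun σ hσ => hY ?_
      rw [← mem_movers.mp hσ]
      exact card_pre X σ
    rw [this]; simp

/-- crossing points of a permutation -/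
def cr (σ : Equiv.Perm W) (X : Finset W) : Finset W := univ.filter fun v => ¬ (v ∈ X ↔ σ v ∈ X)

/-- permutations with few crossing points -/
def near (X : Finset W) (d : ℕ) : Finset (Equiv.Perm W) := univ.filter fun σ => (cr σ X).card ≤ d

/-- small sets -/
def smalls (W : Type) [Fintype W] [DecidableEq W] (d : ℕ) : Finset (Finset W) :=
  univ.filter fun Z => Z.card ≤ d

theorem card_near_le (X : Finset W) (d : ℕ) :
    (near X d).card * (Fintype.card W).choose X.card
      ≤ (smalls W d).card * (Fintype.card W).factorial := by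
  have h1 : near X d ⊆ (smalls W d).biUnion fun Z => movers X (symmDiff X Z) := by
    intro σ hσ
    simp only [near, Finset.mem_filter, mem_univ, true_and] at hσ
    rw [Finset.mem_biUnion]
    refine ⟨cr σ X, ?_, ?_⟩
    · simp only [smalls, Finset.mem_filter, mem_univ, true_and]; exact hσ
    · rw [mem_movers]
      ext v
      simp only [Finset.mem_filter, mem_univ, true_and, Finset.mem_symmDiff, cr]
      tauto
  calc (near X d).card * (Fintype.card W).choose X.card
      ≤ (∑ Z ∈ smalls W d, (movers X (symmDiff X Z)).card) * (Fintype.card W).choose X.card :=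
        Nat.mul_le_mul_right _ ((Finset.card_le_card h1).trans Finset.card_biUnion_le)
    _ = ∑ Z ∈ smalls W d, (movers X (symmDiff X Z)).card * (Fintype.card W).choose X.card := by
        rw [Finset.sum_mul]
    _ ≤ ∑ Z ∈ smalls W d, (Fintype.card W).factorial :=
        Finset.sum_le_sum fun Z _ => card_movers_le X (symmDiff X Z)
    _ = _ := by rw [Finset.sum_const, smul_eq_mul]

theorem card_smalls_le (d : ℕ) :
    ((smalls W d).card : ℝ) ≤ 16 ^ d * (17 / 16) ^ Fintype.card W := by
  have h1 : ∑ Z : Finset W, (1 / 16 : ℝ) ^ Z.card = (17 / 16) ^ Fintype.card W := by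
    have h := Finset.prod_one_add (f := fun _ : W => (1 / 16 : ℝ)) (univ : Finset W)
    simp only [Finset.prod_const, Finset.powerset_univ, Finset.card_univ] at h
    rw [← h]; norm_num
  have h2 : ((smalls W d).card : ℝ) * (1 / 16) ^ d ≤ ∑ Z : Finset W, (1 / 16 : ℝ) ^ Z.card := by
    calc ((smalls W d).card : ℝ) * (1 / 16) ^ d = ∑ Z ∈ smalls W d, (1 / 16 : ℝ) ^ d := by
          rw [Finset.sum_const, nsmul_eq_mul]
      _ ≤ ∑ Z ∈ smalls W d, (1 / 16 : ℝ) ^ Z.card := by
          refine Finset.sum_le_sum fun Z hZ => ?_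
          simp only [smalls, Finset.mem_filter, mem_univ, true_and] at hZ
          exact pow_le_pow_of_le_one (by norm_num) (by norm_num) hZ
      _ ≤ _ := Finset.sum_le_sum_of_subset_of_nonneg (Finset.subset_univ _)
          fun _ _ _ => by positivity
  rw [h1] at h2
  have h3 : (16:ℝ) ^ d * (1 / 16) ^ d = 1 := by rw [← mul_pow]; norm_num
  calc ((smalls W d).card : ℝ) = 16 ^ d * (((smalls W d).card : ℝ) * (1 / 16) ^ d) := by
        linear_combination (-((smalls W d).card : ℝ)) * h3
    _ ≤ _ := mul_le_mul_of_nonneg_left h2 (by positivity)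

end Perm

theorem two_pow_le_central (m : ℕ) : 2 ^ m ≤ (2 * m).choose m := by
  induction m with
  | zero => simp
  | succ m ih =>
    have h1 := Nat.succ_mul_centralBinom_succ m
    simp only [Nat.centralBinom] at h1
    have h2 : (m + 1) * 2 ^ (m + 1) ≤ (m + 1) * (2 * (m + 1)).choose (m + 1) := by
      rw [h1]
      calc (m + 1) * 2 ^ (m + 1) = 2 * (m + 1) * 2 ^ m := by ring
        _ ≤ 2 * (2 * m + 1) * 2 ^ m := Nat.mul_le_mul_right _ (by omega)
        _ ≤ _ := Nat.mul_le_mul_left _ ih
    exact Nat.le_of_mul_le_mul_left h2 (by omega)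

theorem choose_mid (n x : ℕ) (h1 : n < 3 * x) (h2 : 3 * x ≤ 2 * n) :
    2 ^ n ≤ (n.choose x) ^ 3 := by
  have key : ∀ y : ℕ, n ≤ 3 * y → 2 * y ≤ n → 2 ^ n ≤ (n.choose y) ^ 3 := by
    intro y hy1 hy2
    calc 2 ^ n ≤ 2 ^ (3 * y) := Nat.pow_le_pow_right (by norm_num) hy1
      _ = (2 ^ y) ^ 3 := by rw [mul_comm, pow_mul]
      _ ≤ ((2 * y).choose y) ^ 3 := Nat.pow_le_pow_left (two_pow_le_central y) 3
      _ ≤ _ := Nat.pow_le_pow_left (Nat.choose_le_choose y hy2) 3
  by_cases h : 2 * x ≤ n
  · exact key x (by omega) h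
  · have h3 : n.choose x = n.choose (n - x) := (Nat.choose_symm (by omega)).symm
    rw [h3]
    exact key (n - x) (by omega) (by omega)

section Union

variable {W : Type} [Fintype W] [DecidableEq W]

/-- medium size sets -/
def mids (W : Type) [Fintype W] [DecidableEq W] : Finset (Finset W) :=
  univ.filter fun X => Fintype.card W < 3 * X.card ∧ 3 * X.card ≤ 2 * Fintype.card W

theorem near_bound (X : Finset W) (hX : X ∈ mids W) (d : ℕ) (hd : 42 * d < Fintype.card W) :
    2 ^ Fintype.card W * (near X d).card ^ 7 < (Fintype.card W).factorial ^ 7 := by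
  simp only [mids, Finset.mem_filter, mem_univ, true_and] at hX
  set n := Fintype.card W with hn
  set B : ℝ := ((smalls W d).card : ℝ) with hB
  set C : ℝ := (n.choose X.card : ℝ) with hC
  set F : ℝ := (n.factorial : ℝ) with hF
  set M : ℝ := ((near X d).card : ℝ) with hM
  have hFpos : 0 < F := by rw [hF]; exact_mod_cast n.factorial_pos
  have hB1 : 1 ≤ B := by
    rw [hB]
    have : (∅ : Finset W) ∈ smalls W d := by simp [smalls]
    exact_mod_cast Finset.card_pos.mpr ⟨_, this⟩
  have hMC : M * C ≤ B * F := by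
    rw [hM, hC, hB, hF]
    exact_mod_cast card_near_le X d
  have hC3 : (2:ℝ) ^ n ≤ C ^ 3 := by
    rw [hC]; exact_mod_cast choose_mid n X.card hX.1 hX.2
  have hBle : B ≤ 16 ^ d * (17 / 16) ^ n := card_smalls_le d
  have hB21 : B ^ 21 < 2 ^ (4 * n) := by
    calc B ^ 21 ≤ (16 ^ d * (17 / 16 : ℝ) ^ n) ^ 21 := pow_le_pow_left₀ (by linarith) hBle 21
      _ = 2 ^ (84 * d) * ((17 / 16 : ℝ) ^ 21) ^ n := by
          rw [mul_pow, ← pow_mul, ← pow_mul, ← pow_mul, show (16:ℝ) = 2 ^ 4 by norm_num,
            ← pow_mul]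
          congr 2
          · ring
          · ring
      _ ≤ 2 ^ (84 * d) * (4:ℝ) ^ n := by
          refine mul_le_mul_of_nonneg_left (pow_le_pow_left₀ (by positivity) ?_ n) (by positivity)
          norm_num
      _ = 2 ^ (84 * d + 2 * n) := by
          rw [pow_add, show (4:ℝ) = 2 ^ 2 by norm_num, ← pow_mul]
      _ < 2 ^ (4 * n) := pow_lt_pow_right₀ (by norm_num) (by omega)
  have hkey : 2 ^ n * B ^ 7 < C ^ 7 := by
    have h3 : (2 ^ n * B ^ 7) ^ 3 < (C ^ 7) ^ 3 := by
      calc (2 ^ n * B ^ 7) ^ 3 = 2 ^ (3 * n) * B ^ 21 := by ring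
        _ < 2 ^ (3 * n) * 2 ^ (4 * n) := mul_lt_mul_of_pos_left hB21 (by positivity)
        _ = ((2:ℝ) ^ n) ^ 7 := by ring
        _ ≤ (C ^ 3) ^ 7 := pow_le_pow_left₀ (by positivity) hC3 7
        _ = (C ^ 7) ^ 3 := by ring
    exact lt_of_pow_lt_pow_left₀ 3 (by positivity) h3
  have hfin : 2 ^ n * M ^ 7 < F ^ 7 := by
    rcases (show (0:ℝ) ≤ M by rw [hM]; positivity).lt_or_eq with hM0 | hM0
    · have h4 : (M * C) ^ 7 ≤ (B * F) ^ 7 :=
        pow_le_pow_left₀ (by positivity) hMC 7
      have h5 : M ^ 7 * (2 ^ n * B ^ 7) < M ^ 7 * C ^ 7 :=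
        mul_lt_mul_of_pos_left hkey (by positivity)
      have h6 : B ^ 7 * (2 ^ n * M ^ 7) < B ^ 7 * F ^ 7 := by
        calc B ^ 7 * (2 ^ n * M ^ 7) = M ^ 7 * (2 ^ n * B ^ 7) := by ring
          _ < M ^ 7 * C ^ 7 := h5
          _ = (M * C) ^ 7 := by ring
          _ ≤ (B * F) ^ 7 := h4
          _ = _ := by ring
      exact lt_of_mul_lt_mul_left h6 (by positivity)
    · rw [← hM0]
      have : 0 < F ^ 7 := by positivity
      simpa using this
  have : ((2 ^ n * (near X d).card ^ 7 : ℕ) : ℝ) < ((n.factorial ^ 7 : ℕ) : ℝ) := by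
    push_cast
    exact hfin
  exact_mod_cast this

theorem exists_perms (d : ℕ) (hd : 42 * d < Fintype.card W) :
    ∃ σ : Fin 7 → Equiv.Perm W, ∀ X ∈ mids W, ∃ i, d < (cr (σ i) X).card := by
  by_contra hcon
  push Not at hcon
  have h1 : (univ : Finset (Fin 7 → Equiv.Perm W)) ⊆
      (mids W).biUnion fun X => Fintype.piFinset fun _ => near X d := by
    intro σ _
    obtain ⟨X, hX, h2⟩ := hcon σ
    rw [Finset.mem_biUnion]
    refine ⟨X, hX, ?_⟩
    rw [Fintype.mem_piFinset]
    intro i
    simp only [near, Finset.mem_filter, mem_univ, true_and]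
    exact h2 i
  have h2 : (Fintype.card W).factorial ^ 7 ≤ ∑ X ∈ mids W, (near X d).card ^ 7 := by
    have h3 := (Finset.card_le_card h1).trans Finset.card_biUnion_le
    rw [Finset.card_univ, Fintype.card_fun, Fintype.card_fin, Fintype.card_perm] at h3
    refine h3.trans (Finset.sum_le_sum fun X _ => ?_)
    rw [Fintype.card_piFinset]
    simp
  rcases (mids W).eq_empty_or_nonempty with he | hne
  · rw [he] at h2
    simp only [Finset.sum_empty, Nat.le_zero] at h2
    exact absurd h2 (pow_ne_zero _ (Nat.factorial_ne_zero _))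
  · have h3 : ∑ X ∈ mids W, 2 ^ Fintype.card W * (near X d).card ^ 7
        < ∑ X ∈ mids W, (Fintype.card W).factorial ^ 7 :=
      Finset.sum_lt_sum_of_nonempty hne fun X hX => near_bound X hX d hd
    rw [← Finset.mul_sum, Finset.sum_const, smul_eq_mul] at h3
    have h4 : (mids W).card ≤ 2 ^ Fintype.card W := by
      refine (Finset.card_le_univ _).trans ?_
      rw [Fintype.card_finset]
    have h5 : (mids W).card * (Fintype.card W).factorial ^ 7
        ≤ 2 ^ Fintype.card W * (Fintype.card W).factorial ^ 7 := Nat.mul_le_mul_right _ h4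
    have h6 := h3.trans_le h5
    have h7 := Nat.lt_of_mul_lt_mul_left h6
    omega

end Union

/-- edges of the graph -/
abbrev Edg (n : ℕ) : Type := Option (Fin 7) × ZMod n

/-- targets: a cycle and seven permutations -/
def tgtOf {n : ℕ} (σ : Fin 7 → Equiv.Perm (ZMod n)) : Edg n → ZMod n
  | (none, v) => v + 1
  | (some i, v) => σ i v

/-- the edge of each kind entering `w` -/
def inE {n : ℕ} (σ : Fin 7 → Equiv.Perm (ZMod n)) (w : ZMod n) : Option (Fin 7) → Edg n
  | none => (none, w - 1)
  | some i => (some i, (σ i).symm w)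

/-- sources -/
def srcOf {n : ℕ} : Edg n → ZMod n := Prod.snd

theorem exists_graph (n d : ℕ) [NeZero n] (hn : 3 ≤ n) (hd : 42 * d < n) :
    ∃ tgt : Edg n → ZMod n, Expd (srcOf (n := n)) tgt d ∧
      ∀ w, (bd (srcOf (n := n)) tgt {w}).card ≤ 16 := by
  obtain ⟨σ, hσ⟩ := exists_perms (W := ZMod n) d (by rwa [ZMod.card])
  refine ⟨tgtOf σ, ⟨?_, ?_, by rwa [ZMod.card]⟩, ?_⟩
  · intro X h1 h2
    obtain ⟨i, hi⟩ := hσ X (by simp only [mids, Finset.mem_filter, mem_univ, true_and]; exact ⟨h1, h2⟩)
    refine hi.trans_le ?_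
    have h3 : (cr (σ i) X).map ⟨fun v => ((some i, v) : Edg n), fun a b h => by
        simpa using h⟩ ⊆ bd srcOf (tgtOf σ) X := by
      intro e he
      rw [Finset.mem_map] at he
      obtain ⟨v, hv, rfl⟩ := he
      rw [mem_bd]
      simp only [cr, Finset.mem_filter, mem_univ, true_and] at hv
      exact hv
    have h4 := Finset.card_le_card h3
    rwa [Finset.card_map] at h4
  · intro X h1 h2
    have h3 : ∀ v : ZMod n, v ∈ X ↔ v + 1 ∈ X := by
      intro v
      by_contra hcon
      have : ((none, v) : Edg n) ∈ bd srcOf (tgtOf σ) X := by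
        rw [mem_bd]; exact hcon
      rw [h2] at this
      exact absurd this (Finset.notMem_empty _)
    by_contra hne
    obtain ⟨v, hv⟩ := Finset.nonempty_iff_ne_empty.mpr hne
    have h4 : ∀ k : ℕ, v + (k : ZMod n) ∈ X := by
      intro k
      induction k with
      | zero => simpa using hv
      | succ k ih =>
        have := (h3 _).mp ih
        push_cast
        rwa [← add_assoc]
    have h5 : X = univ := by
      refine Finset.eq_univ_of_forall fun w => ?_
      have := h4 (w - v).val
      rw [ZMod.natCast_zmod_val] at this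
      simpa using this
    rw [h5, Finset.card_univ, ZMod.card] at h1
    omega
  · intro w
    have h1 : bd srcOf (tgtOf σ) {w} ⊆
        (univ : Finset (Option (Fin 7))).map ⟨fun i => ((i, w) : Edg n), fun a b h => by
          simpa using h⟩ ∪
        (univ : Finset (Option (Fin 7))).image (inE σ w) := by
      rintro ⟨i, v⟩ he
      rw [mem_bd] at he
      rw [Finset.mem_union]
      by_cases hv : v = w
      · left
        rw [Finset.mem_map]
        exact ⟨i, mem_univ _, by rw [hv]; rfl⟩
      · right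
        have h2 : tgtOf σ (i, v) = w := by
          simp only [Finset.mem_singleton, srcOf] at he
          tauto
        rw [Finset.mem_image]
        refine ⟨i, mem_univ _, ?_⟩
        cases i with
        | none =>
          simp only [tgtOf] at h2
          rw [← h2]; simp [inE]
        | some i =>
          simp only [tgtOf] at h2
          rw [← h2]; simp [inE]
    refine (Finset.card_le_card h1).trans ((Finset.card_union_le _ _).trans ?_)
    have h2 := Finset.card_image_le (s := (univ : Finset (Option (Fin 7)))) (f := inE σ w)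
    rw [Finset.card_map]
    have h3 : (univ : Finset (Option (Fin 7))).card = 8 := by simp
    omega

end Pool.Agent.H3.Frg
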