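import Mathlib
import Pool.Agent.H3.Frg.Expander

set_option autoImplicit false
set_option linter.unusedSectionVars false

namespace Pool.Agent.H3.Frg

open Finset

section Formulas

variable {V : Type}

/-- exclusive or of two formulas -/
def Fm.xr (A B : Fm V) : Fm V := Fm.imp (Fm.imp A B) (Fm.neg (Fm.imp B A))

theorem eval_xr (A B : Fm V) (x : V → Bool) :
    (A.xr B).eval x = Bool.xor (A.eval x) (B.eval x) := by
  simp only [Fm.xr, Fm.eval]
  cases A.eval x <;> cases B.eval x <;> rfl

theorem leaves_xr (A B : Fm V) : (A.xr B).leaves = 2 * (A.leaves + B.leaves) := by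
  simp only [Fm.xr, Fm.leaves]; ring

theorem sg_xor (a b : Bool) : sg (Bool.xor a b) = sg a * sg b := by
  cases a <;> cases b <;> simp [sg]

theorem sg_not (a : Bool) : sg (!a) = - sg a := by
  cases a <;> simp [sg]

/-- balanced parity of `2 ^ k` formulas -/
def par : ℕ → (ℕ → Fm V) → Fm V
  | 0, g => g 0
  | k + 1, g => (par k g).xr (par k fun i => g (2 ^ k + i))

theorem leaves_par (c : ℕ) : ∀ (k : ℕ) (g : ℕ → Fm V), (∀ i, (g i).leaves ≤ c) →
    (par k g).leaves ≤ 4 ^ k * c := by
  intro k
  induction k with
  | zero => intro g h; simpa [par] using h 0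
  | succ k ih =>
    intro g h
    rw [par, leaves_xr]
    have h1 := ih g h
    have h2 := ih (fun i => g (2 ^ k + i)) (fun i => h _)
    calc 2 * ((par k g).leaves + (par k fun i => g (2 ^ k + i)).leaves)
        ≤ 2 * (4 ^ k * c + 4 ^ k * c) := by omega
      _ = 4 ^ (k + 1) * c := by ring

theorem sg_par (x : V → Bool) : ∀ (k : ℕ) (g : ℕ → Fm V),
    sg ((par k g).eval x) = ∏ i ∈ range (2 ^ k), sg ((g i).eval x) := by
  intro k
  induction k with
  | zero => intro g; simp [par]
  | succ k ih =>
    intro g
    rw [par, eval_xr, sg_xor, ih, ih, pow_succ, mul_two, Finset.prod_range_add]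

/-- a false formula -/
def bot (v : V) : Fm V := Fm.neg (Fm.imp (Fm.var v) (Fm.var v))

theorem eval_bot (v : V) (x : V → Bool) : (bot v).eval x = false := by
  simp [bot, Fm.eval]

/-- the formulas fed to the parity -/
def feed (v : V) (l : List V) (i : ℕ) : Fm V :=
  if h : i < l.length then Fm.var (l[i]) else bot v

theorem leaves_feed (v : V) (l : List V) (i : ℕ) : (feed v l i).leaves ≤ 2 := by
  unfold feed
  split_ifs
  · simp [Fm.leaves]
  · simp [bot, Fm.leaves]

theorem prod_feed (v : V) (x : V → Bool) : ∀ (l : List V) (M : ℕ), l.length ≤ M →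
    ∏ i ∈ range M, sg ((feed v l i).eval x) = (l.map fun v => sg (x v)).prod := by
  intro l
  induction l with
  | nil =>
    intro M _
    simp only [List.map_nil, List.prod_nil]
    refine Finset.prod_eq_one fun i _ => ?_
    simp [feed, eval_bot, sg]
  | cons a l ih =>
    intro M hM
    cases M with
    | zero => simp at hM
    | succ M =>
      rw [Finset.prod_range_succ']
      have h1 : ∀ i, feed v (a :: l) (i + 1) = feed v l i := by
        intro i
        unfold feed
        simp
      have h2 : (feed v (a :: l) 0) = Fm.var a := by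
        unfold feed; simp
      simp only [h1, h2]
      rw [ih M (by simpa using hM)]
      simp [Fm.eval, mul_comm]

end Formulas

variable {V : Type} [Fintype V] [DecidableEq V]

/-- parity axiom: the parity of the variables of `S` is `c` -/
noncomputable def parAx (v : V) (M : ℕ) (S : Finset V) (c : Bool) : Fm V :=
  if c then par (Nat.clog 2 M) (feed v S.toList)
  else Fm.neg (par (Nat.clog 2 M) (feed v S.toList))

theorem sg_parS (v : V) (M : ℕ) (S : Finset V) (hS : S.card ≤ M) (x : V → Bool) :
    sg ((par (Nat.clog 2 M) (feed v S.toList)).eval x) = chi S x := by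
  rw [sg_par, prod_feed]
  · unfold chi
    rw [Finset.prod_map_toList]
  · rw [Finset.length_toList]
    exact hS.trans (Nat.le_pow_clog (by norm_num) M)

theorem eval_parAx (v : V) (M : ℕ) (S : Finset V) (hS : S.card ≤ M) (c : Bool)
    (x : V → Bool) : (parAx v M S c).eval x = true ↔ chi S x = sg c := by
  have h := sg_parS v M S hS x
  unfold parAx
  cases c
  · simp only [Bool.false_eq_true, if_false, Fm.eval]
    rw [← h]
    cases (par (Nat.clog 2 M) (feed v S.toList)).eval x <;> simp [sg]
    norm_num
  · simp only [if_true]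
    rw [← h]
    cases (par (Nat.clog 2 M) (feed v S.toList)).eval x <;> simp [sg]
    norm_num

theorem leaves_parAx (v : V) (M : ℕ) (hM : 1 ≤ M) (S : Finset V) (c : Bool) :
    (parAx v M S c).leaves ≤ 8 * M ^ 2 := by
  have h1 : (par (Nat.clog 2 M) (feed v S.toList)).leaves ≤ 8 * M ^ 2 := by
    refine (leaves_par 2 _ _ (leaves_feed v S.toList)).trans ?_
    have h2 : 2 ^ Nat.clog 2 M ≤ 2 * M := by
      rcases Nat.lt_or_ge 1 M with h | h
      · have h3 : 2 ^ (Nat.clog 2 M - 1) < M := by
          have := Nat.pow_pred_clog_lt_self (b := 2) (by norm_num) h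
          simpa using this
        have h4 : 0 < Nat.clog 2 M := Nat.clog_pos (by norm_num) h
        calc 2 ^ Nat.clog 2 M = 2 * 2 ^ (Nat.clog 2 M - 1) := by
              rw [← pow_succ']; congr 1; omega
          _ ≤ 2 * M := by omega
      · have h3 : M = 1 := by omega
        subst h3
        simp
    calc 4 ^ Nat.clog 2 M * 2 = (2 ^ Nat.clog 2 M) ^ 2 * 2 := by
          rw [← pow_mul, Nat.mul_comm (Nat.clog 2 M) 2, pow_mul]; norm_num
      _ ≤ (2 * M) ^ 2 * 2 := Nat.mul_le_mul_right _ (Nat.pow_le_pow_left h2 2)
      _ = _ := by ring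
  unfold parAx
  split_ifs
  · exact h1
  · simpa [Fm.leaves] using h1

end Pool.Agent.H3.Frg
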