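import Mathlib
import Pool.Agent.H3.Frg.Parity

set_option autoImplicit false
set_option linter.unusedSectionVars false

namespace Pool.Agent.H3.Frg

open Finset Real

/-- A semantic refutation of the axioms `Γ` with lines of size at most `s`: every line has at most
`s` occurrences of variables, every line is a tautology or is implied by one axiom or by two
earlier lines, and some line is unsatisfiable. -/
structure IsRefutation {V ι : Type} (Γ : ι → Fm V) (s : ℕ) {L : ℕ} (pf : Fin L → Fm V) :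
    Prop where
  /-- all lines are small -/
  small : ∀ i, (pf i).leaves ≤ s
  /-- every line follows -/
  step : ∀ i, (∀ x, (pf i).eval x = true) ∨
    (∃ a, ∀ x, (Γ a).eval x = true → (pf i).eval x = true) ∨
    (∃ j k, j < i ∧ k < i ∧ ∀ x, (pf j).eval x = true → (pf k).eval x = true →
      (pf i).eval x = true)
  /-- a contradiction is reached -/
  final : ∃ i, ∀ x, (pf i).eval x = false

section Pre

variable {V E Wv : Type} [Fintype V] [DecidableEq V] [Fintype E] [DecidableEq E] [Fintype Wv]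
  [DecidableEq Wv]

/-- variables lying over a set of edges -/
def pre (β : V → E) (T : Finset E) : Finset V := univ.filter fun v => β v ∈ T

theorem liveT_pre {β : V → E} {j : E → V} (hj : ∀ e, β (j e) = e) (T : Finset E) :
    liveT j (pre β T) = T := by
  ext e
  simp [liveT, pre, hj]

theorem pre_symmDiff (β : V → E) (S T : Finset E) :
    pre β (symmDiff S T) = symmDiff (pre β S) (pre β T) := by
  ext v
  simp [pre, Finset.mem_symmDiff]

theorem prod_chi_pre (β : V → E) (src tgt : E → Wv) (x : V → Bool) :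
    ∏ w : Wv, chi (pre β (bd src tgt {w})) x = 1 := by
  have h : ∀ X : Finset Wv, ∏ w ∈ X, chi (pre β (bd src tgt {w})) x
      = chi (pre β (bd src tgt X)) x := by
    intro X
    induction X using Finset.induction_on with
    | empty => simp [bd_empty, pre, chi]
    | insert a X ha ih =>
      rw [Finset.prod_insert ha, ih, chi_mul, ← pre_symmDiff, ← bd_symmDiff]
      congr 3
      ext w
      simp only [Finset.mem_symmDiff, Finset.mem_singleton, Finset.mem_insert]
      constructor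
      · rintro (⟨h1, _⟩ | ⟨h1, _⟩)
        · exact Or.inl h1
        · exact Or.inr h1
      · rintro (h1 | h1)
        · exact Or.inl ⟨h1, fun h2 => ha (h1 ▸ h2)⟩
        · exact Or.inr ⟨h1, fun h2 => ha (h2 ▸ h1)⟩
  rw [h univ]
  have h2 : bd src tgt (univ : Finset Wv) = ∅ := by
    ext e; simp [mem_bd]
  rw [h2]
  simp [pre, chi]

theorem card_pre_le (β : V → E) (T : Finset E) (b t : ℕ) (hb : ∀ e, (fib β e).card ≤ b)
    (hT : T.card ≤ t) : (pre β T).card ≤ t * b := by
  have h1 : pre β T ⊆ T.biUnion fun e => fib β e := by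
    intro v hv
    simp only [pre, Finset.mem_filter, mem_univ, true_and] at hv
    rw [Finset.mem_biUnion]
    exact ⟨β v, hv, mem_fib.mpr rfl⟩
  calc (pre β T).card ≤ ∑ e ∈ T, (fib β e).card :=
        (Finset.card_le_card h1).trans Finset.card_biUnion_le
    _ ≤ ∑ e ∈ T, b := Finset.sum_le_sum fun e _ => hb e
    _ = T.card * b := by rw [Finset.sum_const, smul_eq_mul]
    _ ≤ t * b := Nat.mul_le_mul_right _ hT

theorem no_refutation_of_good {src tgt : E → Wv} {d k : ℕ} (hx : Expd src tgt d)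
    (h4k : 4 * k ≤ d) (hdw : ∀ w, 2 * k + (bd src tgt {w}).card ≤ d)
    (β : V → E) (j : E → V) (hj : ∀ e, β (j e) = e) (a : V → Bool) (c : Wv → Bool) {L : ℕ}
    (pf : Fin L → Fm V)
    (hgood : ∀ i, ∀ T : Finset E, k + 1 ≤ T.card →
      W (fun z => ind (pf i) (glue β j a z)) T = 0)
    (hstep : ∀ i, (∀ x, (pf i).eval x = true) ∨
      (∃ w, ∀ x, chi (pre β (bd src tgt {w})) x = sg (c w) → (pf i).eval x = true) ∨
      (∃ j k, j < i ∧ k < i ∧ ∀ x, (pf j).eval x = true → (pf k).eval x = true →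
        (pf i).eval x = true)) :
    ¬ ∃ i, ∀ x, (pf i).eval x = false := by
  rintro ⟨i0, hi0⟩
  refine tseitin_degree hx (ε := fun w => sg (c w) * chi (deadT β j (pre β (bd src tgt {w}))) a)
    (fun w => ?_) h4k hdw (fun i z => (pf i).eval (glue β j a z)) (fun i T hT => ?_)
    (fun i => ?_) ⟨i0, fun z => hi0 _⟩
  · linear_combination (chi (deadT β j (pre β (bd src tgt {w}))) a) ^ 2 * sg_mul_self (c w) +
      chi_mul_self (deadT β j (pre β (bd src tgt {w}))) a
  · exact hgood i T hT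
  · rcases hstep i with h | ⟨w, hw⟩ | ⟨p, q, hp, hq, h⟩
    · exact Or.inr (Or.inr fun z => h _)
    · refine Or.inl ⟨w, fun z hz => hw _ ?_⟩
      rw [chi_glue β j hj, liveT_pre hj, hz]
      linear_combination sg (c w) *
        chi_mul_self (deadT β j (pre β (bd src tgt {w}))) a
    · exact Or.inr (Or.inl ⟨p, q, hp, hq, fun z h1 h2 => h _ h1 h2⟩)

end Pre

theorem cosh_pow_le (u b : ℝ) (hu : 1 ≤ u) (hb : 0 < b) (s n : ℕ)
    (h : u ^ 2 * s ≤ 16 * n * b ^ 2) :
    cosh ((u - 1) / (2 * b)) ^ (2 * s) ≤ 2 ^ (8 * n) := by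
  have h1 : cosh ((u - 1) / (2 * b)) ^ (2 * s) ≤ exp (((u - 1) / (2 * b)) ^ 2 * s) := by
    calc cosh ((u - 1) / (2 * b)) ^ (2 * s)
        ≤ (exp (((u - 1) / (2 * b)) ^ 2 / 2)) ^ (2 * s) :=
          pow_le_pow_left₀ (Real.cosh_pos _).le (Real.cosh_le_exp_half_sq _) _
      _ = exp (((u - 1) / (2 * b)) ^ 2 * s) := by
          rw [← Real.exp_nat_mul]; congr 1; push_cast; ring
  refine h1.trans ?_
  have h2 : ((u - 1) / (2 * b)) ^ 2 * s ≤ 4 * n := by
    rw [div_pow, div_mul_eq_mul_div, div_le_iff₀ (by positivity)]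
    have h3 : (u - 1) ^ 2 ≤ u ^ 2 := by nlinarith
    calc (u - 1) ^ 2 * (s:ℝ) ≤ u ^ 2 * s := mul_le_mul_of_nonneg_right h3 (by positivity)
      _ ≤ 16 * n * b ^ 2 := h
      _ = _ := by ring
  have h3 : (4:ℝ) * n ≤ Real.log 2 * (8 * n : ℕ) := by
    have := Real.log_two_gt_d9
    push_cast
    have hn : (0:ℝ) ≤ n := by positivity
    nlinarith
  calc exp (((u - 1) / (2 * b)) ^ 2 * s) ≤ exp (Real.log 2 * (8 * n : ℕ)) :=
        Real.exp_le_exp.mpr (h2.trans h3)
    _ = 2 ^ (8 * n) := by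
        rw [mul_comm, Real.exp_nat_mul, Real.exp_log (by norm_num)]

/-- the lower bound for a fixed graph -/
theorem lines_lower (N n s b L : ℕ) [NeZero n] (hn : 1200 ≤ n) (hb : 1 ≤ b)
    (β : Fin N → Edg n) (hfib : ∀ e, b ≤ (fib β e).card)
    (tgt : Edg n → ZMod n) (hx : Expd (srcOf (n := n)) tgt (n / 50))
    (hdw : ∀ w, (bd (srcOf (n := n)) tgt {w}).card ≤ 16)
    (u : ℝ) (hu : u = 2 ^ (32 * 400)) (hs : u ^ 2 * s ≤ 16 * n * (b:ℝ) ^ 2)
    (c : ZMod n → Bool) (pf : Fin L → Fm (Fin N)) (hsm : ∀ i, (pf i).leaves ≤ s)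
    (hstep : ∀ i, (∀ x, (pf i).eval x = true) ∨
      (∃ w, ∀ x, chi (pre β (bd (srcOf (n := n)) tgt {w})) x = sg (c w) →
        (pf i).eval x = true) ∨
      (∃ j k, j < i ∧ k < i ∧ ∀ x, (pf j).eval x = true → (pf k).eval x = true →
        (pf i).eval x = true))
    (hfin : ∃ i, ∀ x, (pf i).eval x = false) : (2:ℝ) ^ (8 * n) ≤ L := by
  by_contra hL
  push Not at hL
  have hu1 : 1 ≤ u := by rw [hu]; exact one_le_pow₀ (by norm_num)
  have hbR : (0:ℝ) < b := by exact_mod_cast hb
  have hcard : Fintype.card (Edg n) = 8 * n := by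
    rw [Fintype.card_prod, ZMod.card]; simp
  have hcosh := cosh_pow_le u b hu1 hbR s n hs
  have hbig : (L : ℝ) * (((2 : ℝ) ^ Fintype.card (Edg n)) ^ 2 *
      cosh ((u - 1) / (2 * b)) ^ (2 * s)) < u ^ (n / 400 + 1) := by
    rw [hcard]
    calc (L : ℝ) * (((2 : ℝ) ^ (8 * n)) ^ 2 * cosh ((u - 1) / (2 * b)) ^ (2 * s))
        ≤ (L : ℝ) * (((2 : ℝ) ^ (8 * n)) ^ 2 * 2 ^ (8 * n)) := by
          refine mul_le_mul_of_nonneg_left (mul_le_mul_of_nonneg_left hcosh (by positivity))
            (by positivity)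
      _ < 2 ^ (8 * n) * (((2 : ℝ) ^ (8 * n)) ^ 2 * 2 ^ (8 * n)) :=
          mul_lt_mul_of_pos_right hL (by positivity)
      _ = 2 ^ (32 * n) := by ring
      _ ≤ 2 ^ (32 * (400 * (n / 400 + 1))) :=
          pow_le_pow_right₀ (by norm_num) (by omega)
      _ = u ^ (n / 400 + 1) := by
          rw [hu, ← pow_mul, mul_assoc]
  obtain ⟨j, hj, a, hgood⟩ := exists_good β u hu1 b hbR
    (fun e => by exact_mod_cast hfib e) s L (n / 400 + 1) pf hsm hbig
  exact no_refutation_of_good hx (by omega) (fun w => by have := hdw w; omega) β j hj a c pf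
    hgood hstep hfin

/-- an even splitting of the variables into blocks -/
theorem exists_blocks (N M : ℕ) (hM : 0 < M) {E : Type} [Fintype E] [DecidableEq E]
    (hE : Fintype.card E = M) :
    ∃ β : Fin N → E, ∀ e, N / M ≤ (fib β e).card ∧ (fib β e).card ≤ N / M + 1 := by
  have e0 : E ≃ Fin M := Fintype.equivFinOfCardEq hE
  refine ⟨fun i => e0.symm ⟨i.val % M, Nat.mod_lt _ hM⟩, fun e => ?_⟩
  have h1 : (fib (fun i : Fin N => e0.symm ⟨i.val % M, Nat.mod_lt _ hM⟩) e).card
      = N.count (· ≡ (e0 e).val [MOD M]) := by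
    rw [Nat.count_eq_card_filter_range]
    rw [← Finset.card_map Fin.valEmbedding]
    congr 1
    ext i
    simp only [Finset.mem_map, mem_fib, Fin.valEmbedding_apply, Finset.mem_filter,
      Finset.mem_range, Nat.ModEq, Nat.mod_eq_of_lt (e0 e).isLt]
    constructor
    · rintro ⟨v, hv, rfl⟩
      refine ⟨v.isLt, ?_⟩
      rw [← hv, Equiv.apply_symm_apply]
    · rintro ⟨h2, h3⟩
      refine ⟨⟨i, h2⟩, ?_, rfl⟩
      rw [Equiv.symm_apply_eq]
      exact Fin.ext h3
  rw [h1, Nat.count_modEq_card _ hM]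
  split_ifs <;> omega

end Pool.Agent.H3.Frg
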